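import Pool.Agent.Run7.h782.GS.P1
import Pool.Agent.Run7.h32.GD.Fou

/-!
Truncation of a target trajectory.
-/

set_option autoImplicit false

open MeasureTheory Set Filter Topology
open scoped ContDiff ComplexConjugate NNReal

namespace Pool.Agent.Run7.h782.GS

open H459R3.NS Pool.Agent.Run7.h782.GD

/-- The ball of frequencies, without zero. -/
noncomputable def bl (L : ℝ) : Finset K3 := (Pool.Agent.Run7.h32.GD.finite_ball L).toFinset.erase 0

theorem mem_bl {L : ℝ} {k : K3} : k ∈ bl L ↔ k ≠ 0 ∧ len k ≤ L := by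
  rw [bl, Finset.mem_erase, Set.Finite.mem_toFinset, Set.mem_ofPred_eq]

theorem zero_bl (L : ℝ) : (0 : K3) ∉ bl L := fun h => (mem_bl.1 h).1 rfl

theorem neg_bl {L : ℝ} {k : K3} : -k ∈ bl L ↔ k ∈ bl L := by
  rw [mem_bl, mem_bl, len_neg, neg_ne_zero]

/-- Restriction to a finite set of frequencies. -/
noncomputable def tr (L : ℝ) (a : Cf) : Cf := fun k => if k ∈ bl L then a k else 0

theorem tr_mem {L : ℝ} {a : Cf} {k : K3} (h : k ∈ bl L) : tr L a k = a k := if_pos h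

theorem tr_not {L : ℝ} {a : Cf} {k : K3} (h : k ∉ bl L) : tr L a k = 0 := if_neg h

theorem norm_tr_le (L : ℝ) (a : Cf) (k : K3) : ‖tr L a k‖ ≤ ‖a k‖ := by
  by_cases h : k ∈ bl L
  · rw [tr_mem h]
  · rw [tr_not h, norm_zero]; exact norm_nonneg _

theorem herm_tr {a : Cf} (ha : Herm a) (L : ℝ) : Herm (tr L a) := by
  intro k i
  by_cases h : k ∈ bl L
  · rw [tr_mem h, tr_mem (neg_bl.2 h)]
    exact ha k i
  · rw [tr_not h, tr_not fun h' => h (neg_bl.1 h')]
    simp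

theorem dv_tr {a : Cf} (ha : Dv a) (L : ℝ) : Dv (tr L a) := by
  intro k
  by_cases h : k ∈ bl L
  · rw [tr_mem h]; exact ha k
  · rw [tr_not h]; exact kd_zero_right k

theorem l1_tr (L : ℝ) (a : Cf) : L1 (tr L a) := L1.of_supp (B := bl L) fun _ hk => tr_not hk

theorem N0_tr_le {a : Cf} (ha : L1 a) (L : ℝ) : N0 (tr L a) ≤ N0 a := by
  rw [N0_eq, N0_eq]
  exact Summable.tsum_le_tsum (norm_tr_le L a) (l1_tr L a) ha

theorem sub_tr_le {a : Cf} (h0 : a 0 = 0) {L : ℝ} (hL : 0 < L) (k : K3) :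
    ‖(a - tr L a) k‖ ≤ L⁻¹ * (len k * ‖a k‖) := by
  rw [Pi.sub_apply]
  by_cases h : k ∈ bl L
  · rw [tr_mem h, sub_self, norm_zero]
    have := len_nonneg k
    positivity
  · rw [tr_not h, sub_zero]
    by_cases hk : k = 0
    · subst hk
      rw [h0]
      simp
    · have h1 : L < len k := by
        by_contra hlt
        exact h (mem_bl.2 ⟨hk, not_lt.1 hlt⟩)
      rw [← mul_assoc, inv_mul_eq_div]
      exact le_mul_of_one_le_left (norm_nonneg _) ((one_le_div hL).2 h1.le)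

theorem sub_tr_inv_le {a : Cf} {L : ℝ} (hL : 0 < L) (k : K3) :
    ‖(a - tr L a) k‖ / len k ≤ L⁻¹ * ‖a k‖ := by
  rw [Pi.sub_apply]
  by_cases h : k ∈ bl L
  · rw [tr_mem h, sub_self, norm_zero, zero_div]
    positivity
  · rw [tr_not h, sub_zero]
    by_cases hk : k = 0
    · subst hk
      rw [len_zero, div_zero]
      positivity
    · have h1 : L < len k := by
        by_contra hlt
        exact h (mem_bl.2 ⟨hk, not_lt.1 hlt⟩)
      rw [inv_mul_eq_div]
      exact div_le_div_of_nonneg_left (norm_nonneg _) hL h1.le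

theorem N0_sub_tr_le {a : Cf} (h0 : a 0 = 0) (ha : L1 a) (ha1 : Summable fun k => len k * ‖a k‖)
    {L : ℝ} (hL : 0 < L) : N0 (a - tr L a) ≤ L⁻¹ * N1 a := by
  rw [N0_eq, N1, W, ← tsum_mul_left]
  exact Summable.tsum_le_tsum (sub_tr_le h0 hL) (ha.sub (l1_tr L a)) (ha1.mul_left _)

theorem N0_sub_tr_le' {a : Cf} (ha : L1 a) (L : ℝ) : N0 (a - tr L a) ≤ N0 a := by
  rw [N0_eq, N0_eq]
  refine Summable.tsum_le_tsum (fun k => ?_) (ha.sub (l1_tr L a)) ha
  rw [Pi.sub_apply]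
  by_cases h : k ∈ bl L
  · rw [tr_mem h, sub_self, norm_zero]; exact norm_nonneg _
  · rw [tr_not h, sub_zero]

theorem Nm_sub_tr_le {a : Cf} (ha : L1 a) {L : ℝ} (hL : 0 < L) :
    Nm (a - tr L a) ≤ L⁻¹ * N0 a := by
  rw [Nm_eq, N0_eq, ← tsum_mul_left]
  refine Summable.tsum_le_tsum (sub_tr_inv_le hL) ?_ (ha.mul_left _)
  have := l1_inv (ha.sub (l1_tr L a))
  simpa only [div_eq_inv_mul] using this

theorem sum_nl_le0 {a b : Cf} (ha : L1 a) (hb : L1 b) (A : Finset K3) :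
    ∑ k ∈ A, ‖nl a b k‖ / len k ≤ 24 * Real.pi * (N0 a * N0 b) := by
  have h := sum_nl_le (a := a) (b := b) (μ := 0) le_rfl (by simpa [L1] using ha)
    (by simpa [L1] using hb) A
  simp only [zero_mul, Real.exp_zero, one_mul] at h
  rw [N0_eq, N0_eq, ← mul_assoc]
  exact h

/-- The residual of the truncation. -/
theorem trunc_le {a : Cf} (h0 : a 0 = 0) (ha : L1 a) (ha1 : Summable fun k => len k * ‖a k‖)
    {L : ℝ} (hL : 0 < L) (B : Finset K3) :
    ∑ k ∈ B, ‖nl (tr L a) (tr L a) k - tr L (nl a a) k‖ / len k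
      ≤ 96 * Real.pi * L⁻¹ * (N1 a * N0 a) := by
  have hpi := Real.pi_pos
  have hLi : 0 < L⁻¹ := inv_pos.2 hL
  set v := tr L a with hv
  have hvl : L1 v := l1_tr L a
  have hd : L1 (a - v) := ha.sub hvl
  have hb0 : ∀ k : K3, 0 ≤ len k * ‖a k‖ := fun k => mul_nonneg (len_nonneg k) (norm_nonneg _)
  have hn0 : ∀ k : K3, 0 ≤ ‖a k‖ := fun k => norm_nonneg _
  set S1 : K3 → ℝ := fun k => ∑' p, (len p * ‖a p‖) * ‖a (k - p)‖ with hS1
  set S2 : K3 → ℝ := fun k => ∑' p, ‖a p‖ * (len (k - p) * ‖a (k - p)‖) with hS2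
  have hS10 : ∀ k, 0 ≤ S1 k := fun k => tsum_nonneg fun p => mul_nonneg (hb0 p) (hn0 _)
  have hS20 : ∀ k, 0 ≤ S2 k := fun k => tsum_nonneg fun p => mul_nonneg (hn0 p) (hb0 _)
  have key : ∀ k, ‖nl v v k - tr L (nl a a) k‖ / len k
      ≤ ‖nl (a - v) a k‖ / len k + ‖nl v (a - v) k‖ / len k
        + 24 * Real.pi * L⁻¹ * (S1 k + S2 k) := by
    intro k
    have hlk := len_nonneg k
    have hlast : 0 ≤ 24 * Real.pi * L⁻¹ * (S1 k + S2 k) :=
      mul_nonneg (by positivity) (add_nonneg (hS10 k) (hS20 k))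
    by_cases h : k ∈ bl L
    · rw [tr_mem h]
      have e : nl v v k - nl a a k = -(nl (a - v) a k + nl v (a - v) k) := by
        rw [nl_sub_left ha hvl ha, nl_sub_right hvl ha hvl]
        simp only [Pi.sub_apply]
        abel
      rw [e, norm_neg, ← add_div]
      have := div_le_div_of_nonneg_right (norm_add_le (nl (a - v) a k) (nl v (a - v) k)) hlk
      linarith
    · rw [tr_not h, sub_zero]
      have h12 : 0 ≤ ‖nl (a - v) a k‖ / len k + ‖nl v (a - v) k‖ / len k := by positivity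
      by_cases hk : k = 0
      · subst hk
        rw [len_zero, div_zero, div_zero, div_zero]
        linarith
      have h1 : L < len k := by
        by_contra hlt
        exact h (mem_bl.2 ⟨hk, not_lt.1 hlt⟩)
      have hl := len_pos hk
      have c1 := summable_conv hb0 hn0 ha1 ha k
      have c2 := summable_conv hn0 hb0 ha ha1 k
      have c0 := summable_conv (fun k => norm_nonneg (v k)) (fun k => norm_nonneg (v k)) hvl hvl k
      have h3 : ∑' p, ‖v p‖ * ‖v (k - p)‖ ≤ L⁻¹ * (S1 k + S2 k) := by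
        rw [hS1, hS2]
        simp only
        rw [← c1.tsum_add c2, ← tsum_mul_left]
        refine Summable.tsum_le_tsum (fun p => ?_) c0 ((c1.add c2).mul_left _)
        have h4 : ‖v p‖ * ‖v (k - p)‖ ≤ ‖a p‖ * ‖a (k - p)‖ :=
          mul_le_mul (norm_tr_le L a p) (norm_tr_le L a (k - p)) (norm_nonneg _) (norm_nonneg _)
        have h5 : 1 ≤ L⁻¹ * (len p + len (k - p)) := by
          rw [inv_mul_eq_div, one_le_div hL]
          exact h1.le.trans (len_le_add k p)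
        have h6 : 0 ≤ ‖a p‖ * ‖a (k - p)‖ := by positivity
        calc ‖v p‖ * ‖v (k - p)‖ ≤ 1 * (‖a p‖ * ‖a (k - p)‖) := by rw [one_mul]; exact h4
          _ ≤ (L⁻¹ * (len p + len (k - p))) * (‖a p‖ * ‖a (k - p)‖) :=
              mul_le_mul_of_nonneg_right h5 h6
          _ = _ := by ring
      have h7 : ‖nl v v k‖ / len k ≤ 24 * Real.pi * (L⁻¹ * (S1 k + S2 k)) := by
        rw [div_le_iff₀ hl]
        calc ‖nl v v k‖ ≤ 24 * Real.pi * len k * ∑' p, ‖v p‖ * ‖v (k - p)‖ :=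
              norm_nl_le hvl hvl k
          _ ≤ 24 * Real.pi * len k * (L⁻¹ * (S1 k + S2 k)) :=
              mul_le_mul_of_nonneg_left h3 (by positivity)
          _ = _ := by ring
      linarith
  have b1 := sum_nl_le0 hd ha B
  have b2 := sum_nl_le0 hvl hd B
  have b3 : ∑ k ∈ B, S1 k ≤ N1 a * N0 a := by
    rw [N0_eq]
    exact sum_conv_le hb0 hn0 ha1 ha B
  have b4 : ∑ k ∈ B, S2 k ≤ N1 a * N0 a := by
    rw [N0_eq, mul_comm]
    exact sum_conv_le hn0 hb0 ha ha1 B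
  have b5 := N0_sub_tr_le h0 ha ha1 hL
  have b6 := N0_tr_le ha L
  have n0 := N0_nonneg a
  have n1 := N0_nonneg (a - v)
  have n2 := N0_nonneg v
  calc ∑ k ∈ B, ‖nl v v k - tr L (nl a a) k‖ / len k
      ≤ ∑ k ∈ B, (‖nl (a - v) a k‖ / len k + ‖nl v (a - v) k‖ / len k
        + 24 * Real.pi * L⁻¹ * (S1 k + S2 k)) := Finset.sum_le_sum fun k _ => key k
    _ = ∑ k ∈ B, ‖nl (a - v) a k‖ / len k + ∑ k ∈ B, ‖nl v (a - v) k‖ / len k
        + 24 * Real.pi * L⁻¹ * (∑ k ∈ B, S1 k + ∑ k ∈ B, S2 k) := by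
        rw [Finset.sum_add_distrib, Finset.sum_add_distrib, ← Finset.mul_sum,
          Finset.sum_add_distrib]
    _ ≤ 24 * Real.pi * (L⁻¹ * N1 a * N0 a) + 24 * Real.pi * (N0 a * (L⁻¹ * N1 a))
        + 24 * Real.pi * L⁻¹ * (N1 a * N0 a + N1 a * N0 a) := by
        refine add_le_add (add_le_add (b1.trans ?_) (b2.trans ?_)) ?_
        · exact mul_le_mul_of_nonneg_left (mul_le_mul_of_nonneg_right b5 n0) (by positivity)
        · exact mul_le_mul_of_nonneg_left (mul_le_mul b6 b5 n1 n0) (by positivity)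
        · exact mul_le_mul_of_nonneg_left (add_le_add b3 b4) (by positivity)
    _ = _ := by ring

end Pool.Agent.Run7.h782.GS
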