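import Pool.Agent.Run7.h782.GS.Step3
import Pool.Agent.Run7.h782.GS.P3
import Pool.Agent.Run7.h782.GD.T1
import Pool.Agent.Run7.h407.GS.App2
import Pool.Agent.Run7.h744.GS.P4
import Pool.Agent.Run7.h744.GS.P9
import Pool.Agent.Run7.h308.GS.P5
import Pool.Agent.Run7.h308.GS.P6
import Pool.Agent.Run7.h969.GD.Tgt5
import Pool.Agent.Run7.h969.GS.Iter

/-!
Assembly of the pieces.
-/

set_option autoImplicit false

namespace Pool.Agent.Run7.h782.GS

theorem stmStep : StmStep := step GD.stmT1 Pool.Agent.Run7.h407.GD.stmApp2 stmInt stmProp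

theorem stmIter : StmIter :=
  Pool.Agent.Run7.h969.GS.iter stmStep
    (Pool.Agent.Run7.h308.GS.stmLim Pool.Agent.Run7.h744.GS.stmSmooth)

theorem stmInit : StmInit :=
  Pool.Agent.Run7.h744.GS.init stmIter Pool.Agent.Run7.h969.GD.stmTg'
    Pool.Agent.Run7.h308.GS.stmPhys2

end Pool.Agent.Run7.h782.GS
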