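import Pool.Agent.Run7.h782.GS.Est

/-!
Piece P1: solutions which become small are targets.
-/

set_option autoImplicit false

open MeasureTheory Set Filter Topology
open scoped ContDiff ComplexConjugate NNReal

namespace Pool.Agent.Run7.h782.GS

open H459R3.NS Pool.Agent.Run7.h782.GD

/-- The interpolation `‖a‖₁ ‖a‖₀ ≤ ‖a‖₋₁ ‖a‖₂`. -/
theorem N1_N0_le {a : Cf} (h0 : a 0 = 0) (hs0 : L1 a) (hs1 : Summable fun k => len k * ‖a k‖)
    (hs2 : Summable fun k => len k ^ 2 * ‖a k‖) :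
    N1 a * N0 a ≤ Nm a * W (fun k => len k ^ 2) a := by
  have hsm : Summable fun k => ‖a k‖ / len k := by
    have := l1_inv hs0
    simpa only [div_eq_inv_mul] using this
  have hb0 : ∀ k : K3, 0 ≤ len k * ‖a k‖ := fun k => mul_nonneg (len_nonneg k) (norm_nonneg _)
  have hn0 : ∀ k : K3, 0 ≤ ‖a k‖ := fun k => norm_nonneg _
  have p1 : Summable fun z : K3 × K3 => (len z.1 * ‖a z.1‖) * ‖a z.2‖ :=
    hs1.mul_of_nonneg hs0 hb0 hn0
  have p1' : Summable fun z : K3 × K3 => ‖a z.1‖ * (len z.2 * ‖a z.2‖) :=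
    Summable.mul_of_nonneg hs0 hs1 hn0 hb0
  have hm0 : ∀ k : K3, 0 ≤ ‖a k‖ / len k := fun k => div_nonneg (norm_nonneg _) (len_nonneg k)
  have h20 : ∀ k : K3, 0 ≤ len k ^ 2 * ‖a k‖ := fun k => by positivity
  have p2 : Summable fun z : K3 × K3 => (‖a z.1‖ / len z.1) * (len z.2 ^ 2 * ‖a z.2‖) :=
    hsm.mul_of_nonneg hs2 hm0 h20
  have p2' : Summable fun z : K3 × K3 => (len z.1 ^ 2 * ‖a z.1‖) * (‖a z.2‖ / len z.2) :=
    hs2.mul_of_nonneg hsm h20 hm0
  have e1 : N1 a * N0 a = ∑' z : K3 × K3, (len z.1 * ‖a z.1‖) * ‖a z.2‖ := by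
    rw [N0_eq]
    exact hs1.tsum_mul_tsum hs0 p1
  have e1' : N0 a * N1 a = ∑' z : K3 × K3, ‖a z.1‖ * (len z.2 * ‖a z.2‖) := by
    rw [N0_eq]
    exact Summable.tsum_mul_tsum hs0 hs1 p1'
  have e2 : Nm a * W (fun k => len k ^ 2) a
      = ∑' z : K3 × K3, (‖a z.1‖ / len z.1) * (len z.2 ^ 2 * ‖a z.2‖) := by
    rw [Nm_eq]
    exact hsm.tsum_mul_tsum hs2 p2
  have e2' : W (fun k => len k ^ 2) a * Nm a
      = ∑' z : K3 × K3, (len z.1 ^ 2 * ‖a z.1‖) * (‖a z.2‖ / len z.2) := by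
    rw [Nm_eq]
    exact hs2.tsum_mul_tsum hsm p2'
  have h : N1 a * N0 a + N0 a * N1 a
      ≤ Nm a * W (fun k => len k ^ 2) a + W (fun k => len k ^ 2) a * Nm a := by
    rw [e1, e1', e2, e2', ← p1.tsum_add p1', ← p2.tsum_add p2']
    refine Summable.tsum_le_tsum (fun z => ?_) (p1.add p1') (p2.add p2')
    obtain ⟨k, l⟩ := z
    simp only
    by_cases hk : k = 0
    · subst hk
      rw [h0]
      simp
    by_cases hl : l = 0
    · subst hl
      rw [h0]
      simp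
    have hk' := len_pos hk
    have hl' := len_pos hl
    have key : len k + len l ≤ len l ^ 2 / len k + len k ^ 2 / len l := by
      rw [div_add_div _ _ hk'.ne' hl'.ne', le_div_iff₀ (by positivity)]
      nlinarith [mul_nonneg (add_pos hk' hl').le (sq_nonneg (len k - len l))]
    have h3 := mul_le_mul_of_nonneg_right key (mul_nonneg (hn0 k) (hn0 l))
    calc len k * ‖a k‖ * ‖a l‖ + ‖a k‖ * (len l * ‖a l‖)
        = (len k + len l) * (‖a k‖ * ‖a l‖) := by ring
      _ ≤ (len l ^ 2 / len k + len k ^ 2 / len l) * (‖a k‖ * ‖a l‖) := h3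
      _ = _ := by ring
  nlinarith

theorem W_inv_len2 (a : Cf) : W (fun k => (len k)⁻¹ * len k ^ 2) a = N1 a := by
  refine tsum_congr fun k => ?_
  by_cases hk : k = 0
  · subst hk; simp
  · have := (len_pos hk).ne'
    congr 1
    field_simp

theorem W_one_len2 (a : Cf) : W (fun k => 1 * len k ^ 2) a = W (fun k => len k ^ 2) a :=
  tsum_congr fun k => by
    show 1 * len k ^ 2 * ‖a k‖ = len k ^ 2 * ‖a k‖
    rw [one_mul]

theorem W_neg (w : K3 → ℝ) (a : Cf) : W w (-a) = W w a :=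
  tsum_congr fun k => by rw [Pi.neg_apply, norm_neg]

theorem LSol.der' {ν : ℝ} {U : ℝ → Cf} (H : LSol ν U) : ∀ t, 0 ≤ t → ∀ k,
    HasDerivWithinAt (fun s => U s k) (-(lam ν k : ℂ) • U t k + (-nl (U t) (U t)) k) (Ici 0) t := by
  intro t ht k
  have := H.der t ht k
  rwa [sub_eq_add_neg] at this

theorem LSol.contN1 {ν : ℝ} {U : ℝ → Cf} (H : LSol ν U) : ContinuousOn (fun t => N1 (U t)) (Ici 0) :=
  Maj.cont H.maj H.cnt wt_len

theorem LSol.contN0 {ν : ℝ} {U : ℝ → Cf} (H : LSol ν U) : ContinuousOn (fun t => N0 (U t)) (Ici 0) :=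
  Maj.cont H.maj H.cnt wt_one

theorem LSol.contNm {ν : ℝ} {U : ℝ → Cf} (H : LSol ν U) : ContinuousOn (fun t => Nm (U t)) (Ici 0) :=
  Maj.cont H.maj H.cnt wt_inv

/-- The critical estimate. -/
theorem LSol.crit {ν : ℝ} (hν : 0 < ν) {U : ℝ → Cf} (H : LSol ν U) {s t : ℝ} (hs : 0 ≤ s)
    (hst : s ≤ t) (h : ∀ r, s ≤ r → Nm (U r) ≤ 1 / 4 * ν) :
    Nm (U t) + ν * ∫ r in s..t, N1 (U r) ≤ Nm (U s) := by
  have hM : Maj U := H.maj
  have hpi := Real.pi_gt_three
  have h1 := energy hν.le hM H.cnt (hM.nl hM).neg (H.cnt.nl H.cnt hM hM).neg H.der' wt_inv hs hst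
  simp only [W_inv_len2, W_neg] at h1
  have h2 : ∫ r in s..t, W (fun k => (len k)⁻¹) (nl (U r) (U r))
      ≤ ∫ r in s..t, 6 * Real.pi * ν * N1 (U r) := by
    refine intervalIntegral.integral_mono_on hst ?_ ((ii H.contN1 hs hst).const_mul _) fun r hr => ?_
    · exact ii ((hM.nl hM).cont (H.cnt.nl H.cnt hM hM) wt_inv) hs hst
    · have hr0 := hs.trans hr.1
      have a1 := Nm_nl_le (hM.l1 hr0) (hM.l1 hr0)
      have a2 := N0_sq_le (H.zero r hr0) (hM.l1 hr0) (hM.sum wt_len hr0)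
      have a3 := h r hr.1
      have a4 := N1_nonneg (U r)
      calc W (fun k => (len k)⁻¹) (nl (U r) (U r)) ≤ 24 * Real.pi * (N0 (U r) * N0 (U r)) := a1
        _ = 24 * Real.pi * N0 (U r) ^ 2 := by ring
        _ ≤ 24 * Real.pi * (Nm (U r) * N1 (U r)) := mul_le_mul_of_nonneg_left a2 (by positivity)
        _ ≤ 24 * Real.pi * (1 / 4 * ν * N1 (U r)) :=
            mul_le_mul_of_nonneg_left (mul_le_mul_of_nonneg_right a3 a4) (by positivity)
        _ = _ := by ring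
  rw [intervalIntegral.integral_const_mul] at h2
  have h3 : 0 ≤ ∫ r in s..t, N1 (U r) :=
    intervalIntegral.integral_nonneg hst fun r _ => N1_nonneg _
  have h4 : (6 * Real.pi * ν + ν) * (∫ r in s..t, N1 (U r))
      ≤ 4 * Real.pi ^ 2 * ν * ∫ r in s..t, N1 (U r) := by
    refine mul_le_mul_of_nonneg_right ?_ h3
    have h5 : 6 * Real.pi + 1 ≤ 4 * Real.pi ^ 2 := by nlinarith
    nlinarith
  have e1 : W (fun k => (len k)⁻¹) (U t) = Nm (U t) := rfl
  have e2 : W (fun k => (len k)⁻¹) (U s) = Nm (U s) := rfl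
  rw [e1, e2] at h1
  nlinarith

/-- The sum norm does not increase once the critical norm is small. -/
theorem LSol.decr {ν : ℝ} (hν : 0 < ν) {U : ℝ → Cf} (H : LSol ν U) {s t : ℝ} (hs : 0 ≤ s)
    (hst : s ≤ t) (h : ∀ r, s ≤ r → Nm (U r) ≤ 1 / 4 * ν) : N0 (U t) ≤ N0 (U s) := by
  have hM : Maj U := H.maj
  have hpi := Real.pi_gt_three
  have hc2 : ContinuousOn (fun r => W (fun k => len k ^ 2) (U r)) (Ici 0) := hM.cont H.cnt wt_len2
  have h1 := energy hν.le hM H.cnt (hM.nl hM).neg (H.cnt.nl H.cnt hM hM).neg H.der' wt_one hs hst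
  simp only [W_one_len2, W_neg] at h1
  have h2 : ∫ r in s..t, W (fun _ => 1) (nl (U r) (U r))
      ≤ ∫ r in s..t, 12 * Real.pi * ν * W (fun k => len k ^ 2) (U r) := by
    refine intervalIntegral.integral_mono_on hst ?_ ((ii hc2 hs hst).const_mul _) fun r hr => ?_
    · exact ii ((hM.nl hM).cont (H.cnt.nl H.cnt hM hM) wt_one) hs hst
    · have hr0 := hs.trans hr.1
      have l0 := hM.l1 hr0
      have l1 := hM.sum wt_len hr0
      have l2 := hM.sum wt_len2 hr0
      have a1 := N0_nl_le l0 l0 l1 l1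
      have a2 := N1_N0_le (H.zero r hr0) l0 l1 l2
      have a3 := h r hr.1
      have a4 : 0 ≤ W (fun k => len k ^ 2) (U r) := W_nonneg wt_len2 _
      calc W (fun _ => 1) (nl (U r) (U r))
          ≤ 24 * Real.pi * (N1 (U r) * N0 (U r) + N0 (U r) * N1 (U r)) := a1
        _ = 48 * Real.pi * (N1 (U r) * N0 (U r)) := by ring
        _ ≤ 48 * Real.pi * (Nm (U r) * W (fun k => len k ^ 2) (U r)) :=
            mul_le_mul_of_nonneg_left a2 (by positivity)
        _ ≤ 48 * Real.pi * (1 / 4 * ν * W (fun k => len k ^ 2) (U r)) :=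
            mul_le_mul_of_nonneg_left (mul_le_mul_of_nonneg_right a3 a4) (by positivity)
        _ = _ := by ring
  rw [intervalIntegral.integral_const_mul] at h2
  have h3 : 0 ≤ ∫ r in s..t, W (fun k => len k ^ 2) (U r) :=
    intervalIntegral.integral_nonneg hst fun r _ => W_nonneg wt_len2 _
  have h4 : 12 * Real.pi * ν * (∫ r in s..t, W (fun k => len k ^ 2) (U r))
      ≤ 4 * Real.pi ^ 2 * ν * ∫ r in s..t, W (fun k => len k ^ 2) (U r) := by
    refine mul_le_mul_of_nonneg_right ?_ h3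
    nlinarith [mul_pos (by linarith : (0 : ℝ) < Real.pi) hν]
  have e1 : W (fun _ => 1) (U t) = N0 (U t) := rfl
  have e2 : W (fun _ => 1) (U s) = N0 (U s) := rfl
  rw [e1, e2] at h1
  linarith

theorem sum_div_le_Nm {a : Cf} (ha : L1 a) (A : Finset K3) : ∑ k ∈ A, ‖a k‖ / len k ≤ Nm a := by
  simp only [div_eq_inv_mul]
  exact sum_le_W wt_inv (l1_inv ha) A

theorem Nm_le_of_sum {a : Cf} {M : ℝ} (h : ∀ A : Finset K3, ∑ k ∈ A, ‖a k‖ / len k ≤ M) :
    Nm a ≤ M := by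
  rw [Nm_eq]
  exact Real.tsum_le_of_sum_le (fun k => div_nonneg (norm_nonneg _) (len_nonneg k)) h

theorem sum_le_N0 {a : Cf} (ha : L1 a) (A : Finset K3) : ∑ k ∈ A, ‖a k‖ ≤ N0 a := by
  rw [N0_eq]
  exact Summable.sum_le_tsum A (fun k _ => norm_nonneg _) ha

/-- **Piece P1.** -/
theorem stmInt : StmInt := by
  refine ⟨1 / 4, by norm_num, ?_⟩
  intro ν hν U H ⟨s, hs, hsm⟩
  have hM : Maj U := H.maj
  have hNm : ∀ r, s ≤ r → Nm (U r) ≤ 1 / 4 * ν := fun r hr => Nm_le_of_sum (hsm r hr)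
  have hN1i : 0 ≤ ∫ r in (0 : ℝ)..s, N1 (U r) :=
    intervalIntegral.integral_nonneg hs fun r _ => N1_nonneg _
  -- a bound on `[0, s]`
  obtain ⟨D, hD⟩ : ∃ D : ℝ, ∀ r ∈ Icc 0 s, N0 (U r) ≤ D := by
    obtain ⟨D, hD⟩ := (isCompact_Icc.bddAbove_image
      (H.contN0.mono (Icc_subset_Ici_self : Icc 0 s ⊆ Ici 0)))
    exact ⟨D, fun r hr => hD ⟨r, hr, rfl⟩⟩
  refine { toLSol := H, bd := ?_, int := ?_, ev := ?_ }
  · refine ⟨D, fun t ht A => (sum_le_N0 (hM.l1 ht) A).trans ?_⟩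
    rcases le_total t s with h | h
    · exact hD t ⟨ht, h⟩
    · exact (H.decr hν hs h hNm).trans (hD s ⟨hs, le_rfl⟩)
  · refine ⟨(∫ r in (0 : ℝ)..s, N1 (U r)) + Nm (U s) / ν, fun T hT A => ?_⟩
    have hcA : ContinuousOn (fun r => ∑ k ∈ A, len k * ‖U r k‖) (Ici 0) :=
      continuousOn_finsetSum _ fun k _ => continuousOn_const.mul (H.cnt k).norm
    have h1 : ∫ t in (0 : ℝ)..T, ∑ k ∈ A, len k * ‖U t k‖ ≤ ∫ t in (0 : ℝ)..T, N1 (U t) :=
      intervalIntegral.integral_mono_on hT (ii hcA le_rfl hT) (ii H.contN1 le_rfl hT) fun r hr =>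
        sum_le_W wt_len (hM.sum wt_len hr.1) A
    refine h1.trans ?_
    have h5 : 0 ≤ Nm (U s) / ν := div_nonneg (Nm_nonneg _) hν.le
    rcases le_total T s with h | h
    · have h2 := intervalIntegral.integral_add_adjacent_intervals (ii H.contN1 le_rfl hT)
        (ii H.contN1 hT h)
      have h3 : 0 ≤ ∫ r in T..s, N1 (U r) :=
        intervalIntegral.integral_nonneg h fun r _ => N1_nonneg _
      linarith
    · have h2 := intervalIntegral.integral_add_adjacent_intervals (ii H.contN1 le_rfl hs)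
        (ii H.contN1 hs h)
      have h3 := H.crit hν hs h hNm
      have h4 : ∫ r in s..T, N1 (U r) ≤ Nm (U s) / ν := by
        rw [le_div_iff₀ hν]
        have := Nm_nonneg (U T)
        linarith
      linarith
  · intro ε hε
    refine ⟨s + Nm (U s) / (ν * ε), by have := Nm_nonneg (U s); positivity, fun t ht A => ?_⟩
    have hd : 0 ≤ Nm (U s) / (ν * ε) := by have := Nm_nonneg (U s); positivity
    have hst : s ≤ t := by linarith
    have ht0 : 0 ≤ t := hs.trans hst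
    refine (sum_div_le_Nm (hM.l1 ht0) A).trans ?_
    -- `(t - s) ν Nm (U t) ≤ Nm (U s)`
    have h1 : ∀ r ∈ Icc s t, Nm (U t) ≤ N1 (U r) := by
      intro r hr
      have hr0 := hs.trans hr.1
      have h2 := H.crit hν hr0 hr.2 fun q hq => hNm q (hr.1.trans hq)
      have h3 : 0 ≤ ∫ q in r..t, N1 (U q) :=
        intervalIntegral.integral_nonneg hr.2 fun r _ => N1_nonneg _
      have h4 := Nm_le_N0 (hM.l1 hr0)
      have h5 := N0_le_N1 (H.zero r hr0) (hM.l1 hr0) (hM.sum wt_len hr0)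
      have := mul_nonneg hν.le h3
      linarith
    have h2 : (t - s) * Nm (U t) ≤ ∫ r in s..t, N1 (U r) := by
      have h3 : ∫ _ in s..t, Nm (U t) ≤ ∫ r in s..t, N1 (U r) :=
        intervalIntegral.integral_mono_on hst (by simp) (ii H.contN1 hs hst) h1
      rwa [intervalIntegral.integral_const, smul_eq_mul] at h3
    have h3 := H.crit hν hs hst hNm
    have h4 := Nm_nonneg (U t)
    by_contra hlt
    push Not at hlt
    have h5 : Nm (U s) ≤ (t - s) * (ν * ε) := by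
      have : Nm (U s) / (ν * ε) ≤ t - s := by linarith
      rwa [div_le_iff₀ (by positivity)] at this
    have h6 : (t - s) * (ν * ε) ≤ (t - s) * (ν * Nm (U t)) :=
      mul_le_mul_of_nonneg_left (mul_le_mul_of_nonneg_left hlt.le hν.le) (sub_nonneg.2 hst)
    have h7 : ν * ((t - s) * Nm (U t)) ≤ ν * ∫ r in s..t, N1 (U r) :=
      mul_le_mul_of_nonneg_left h2 hν.le
    have h8 : Nm (U t) ≤ 0 := by
      have e : (t - s) * (ν * Nm (U t)) = ν * ((t - s) * Nm (U t)) := by ring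
      linarith
    linarith

end Pool.Agent.Run7.h782.GS
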