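import Pool.Agent.Run7.h782.GD.Pub

/-!
Solutions which are smooth for positive times, and a Besov norm of order -1.
-/

set_option autoImplicit false

open MeasureTheory Set
open scoped ContDiff ENNReal

namespace Pool.Agent.Run7.h782.GS

open H459R3.NS Pool.Agent.Run7.h782.GD

/-- Smooth `1`-periodic solutions (velocity `u`, pressure `p`) of the Navier-Stokes equations with
viscosity `ν` without force for all times `t > 0`. -/
structure OSol (ν : ℝ) (u : ℝ → V → V) (p : ℝ → V → ℝ) : Prop where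
  smooth_u : ContDiffOn ℝ ∞ (fun z : ℝ × V => u z.1 z.2) (Ioi 0 ×ˢ univ)
  smooth_p : ContDiffOn ℝ ∞ (fun z : ℝ × V => p z.1 z.2) (Ioi 0 ×ˢ univ)
  per_u : ∀ t, 0 < t → Per (u t)
  per_p : ∀ t, 0 < t → Per (p t)
  divfree : ∀ t, 0 < t → ∀ x, ∑ i, pd i (fun y => u t y i) x = 0
  momentum : ∀ t, 0 < t → ∀ x i,
    deriv (fun s => u s x i) t + ∑ j, u t x j * pd j (fun y => u t y i) x
      = ν * ∑ j, pd j (pd j (fun y => u t y i)) x - pd i (p t) x

/-- The `q`-th power of the norm of the homogeneous Besov space of order `-1` with indices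
`∞, q`: the integral of `(√s sup |e^{sΔ} f|) ^ q / s`, `s > 0`. -/
noncomputable def bes (q : ℝ) (f : V → ℝ) : ℝ≥0∞ :=
  ∫⁻ s in Ioi (0 : ℝ), (⨆ x, ENNReal.ofReal (Real.sqrt s * |heat s f x|)) ^ q / ENNReal.ofReal s

end Pool.Agent.Run7.h782.GS
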