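import Pool.Agent.Run7.h782.GD.Defs
import Pool.Agent.Run7.h782.GS.Pub

/-!
Steering of periodic Navier-Stokes flows by fast waves in the initial velocity, and global
solutions which are smooth for positive times: definitions and statements of the pieces.
-/

set_option autoImplicit false

open MeasureTheory Set Filter Topology
open scoped ContDiff ENNReal

namespace Pool.Agent.Run7.h782.GS

open H459R3.NS Pool.Agent.Run7.h782.GD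

/-- The multiplier of the heat semigroup. -/
noncomputable def ht (s : ℝ) (k : K3) : ℝ := Real.exp (-(4 * Real.pi ^ 2 * GD.sq k * s))

/-- Solutions of the equation for the coefficients on `[0, ∞)`, with mean zero and rapid decay in
the frequency, locally uniformly in time. -/
structure LSol (ν : ℝ) (U : ℝ → Cf) : Prop where
  zero : ∀ t, 0 ≤ t → U t 0 = 0
  herm : ∀ t, 0 ≤ t → Herm (U t)
  div : ∀ t, 0 ≤ t → Dv (U t)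
  der : ∀ t, 0 ≤ t → ∀ k, HasDerivWithinAt (fun s => U s k)
    (-(lam ν k : ℂ) • U t k - nl (U t) (U t) k) (Ici 0) t
  maj : ∀ (n : ℕ) (T : ℝ), ∃ A : K3 → ℝ, Summable A ∧
    ∀ t ∈ Icc 0 T, ∀ k, (1 + len k) ^ n * ‖U t k‖ ≤ A k

/-- Target trajectories: global solutions with integrable `∑ |k| |U k|`, which become small. -/
structure Tg (ν : ℝ) (U : ℝ → Cf) : Prop extends LSol ν U where
  bd : ∃ M : ℝ, ∀ t, 0 ≤ t → ∀ A : Finset K3, ∑ k ∈ A, ‖U t k‖ ≤ M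
  int : ∃ M : ℝ, ∀ T, 0 ≤ T → ∀ A : Finset K3,
    ∫ t in (0 : ℝ)..T, ∑ k ∈ A, len k * ‖U t k‖ ≤ M
  ev : ∀ ε : ℝ, 0 < ε → ∃ s : ℝ, 0 ≤ s ∧ ∀ t, s ≤ t → ∀ A : Finset K3,
    ∑ k ∈ A, ‖U t k‖ / len k ≤ ε

/-- **Piece F1** (helper969). Smooth global solutions with mean zero are targets. -/
def StmTg : Prop := ∀ (ν : ℝ), 0 < ν → ∀ (u : ℝ → V → V) (p : ℝ → V → ℝ),
  (∀ T, IsSol ν T u p) → (∀ i, ∫ x in cube, u 0 x i = 0) → Tg ν (fun t => vf (u t))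

/-- **Piece P1.** Solutions which become small are targets. -/
def StmInt : Prop := ∃ c : ℝ, 0 < c ∧ ∀ (ν : ℝ), 0 < ν → ∀ U : ℝ → Cf, LSol ν U →
  (∃ s : ℝ, 0 ≤ s ∧ ∀ t, s ≤ t → ∀ A : Finset K3, ∑ k ∈ A, ‖U t k‖ / len k ≤ c * ν) → Tg ν U

/-- **Piece P2** (helper407). Approximate solutions, as in `StmApp`, with more information: the
constant `K` is explicit, one majorant `h` serves the waves at all times, and `v` decays. -/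
def StmApp2 : Prop := ∃ C₀ : ℝ, 0 < C₀ ∧ ∀ (ν : ℝ), 0 < ν → ∀ (Z : Finset K3) (z : Cf),
  (0 : K3) ∉ Z → (∀ k ∉ Z, z k = 0) → Herm z → Dv z →
  ∀ δ : ℝ, 0 < δ → ∀ R η : ℝ, 0 < η →
  ∃ (B : Finset K3) (v F : ℝ → Cf) (g h : ℝ → ℝ) (w : Cf), Appr ν B v F ∧ Continuous g ∧
    (∀ t, 0 ≤ t → ∑ k ∈ B, ‖F t k‖ / len k ≤ g t) ∧
    (∀ T, 0 ≤ T → ∫ t in (0 : ℝ)..T, g t ≤ η) ∧
    (∀ T, 0 ≤ T → ∫ t in (0 : ℝ)..T, (∑ k ∈ B, ‖v t k‖) ^ 2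
      ≤ C₀ * ∑ k ∈ Z, ‖z k‖ / len k + 1) ∧
    (∀ k, v 0 k = z k + w k) ∧ (∀ k ∉ B, w k = 0) ∧ (∀ k, len k ≤ R → w k = 0) ∧
    Continuous h ∧ (∀ s, 0 < s → h s ≤ δ / Real.sqrt s) ∧
    (∀ T, 0 ≤ T → ∫ s in (0 : ℝ)..T, h s ^ 2 ≤ C₀ * ν * ∑ k ∈ Z, ‖z k‖ / len k) ∧
    (∀ s, 0 ≤ s → ∑ k ∈ B, ht s k * ‖w k‖ ≤ h s) ∧
    (∀ t, 0 ≤ t → ∀ s, 0 ≤ s →
      ∑ k ∈ B, ht s k * ‖v t k‖ ≤ C₀ * ∑ k ∈ Z, ht s k * ‖z k‖ + h s) ∧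
    ∀ t, δ ≤ t → ∑ k ∈ B, len k * ‖v t k‖ ≤ δ * Real.exp (-t)

/-- **Piece P3.** Stability in the sum norm. -/
def StmProp : Prop := ∃ C₂ : ℝ, 0 < C₂ ∧ ∀ (ν : ℝ), 0 < ν → ∀ (a U : ℝ → Cf), LSol ν a →
  LSol ν U → ∀ s : ℝ, 0 ≤ s → ∀ M : ℝ,
  (∀ t, s ≤ t → ∀ A : Finset K3, ∫ r in s..t, (((∑ k ∈ A, ‖a r k‖) ^ 2 + (∑ k ∈ A, ‖U r k‖) ^ 2) / ν
    + ∑ k ∈ A, len k * (‖a r k‖ + ‖U r k‖)) ≤ M) →
  ∀ t, s ≤ t → ∀ A : Finset K3,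
    ∑ k ∈ A, ‖a t k - U t k‖ ≤ Real.exp (C₂ * M) * ∑' k, ‖a s k - U s k‖

/-- **The step.** From `z + w`, `w` fast waves, one reaches the trajectory `U` at once. -/
def StmStep : Prop := ∃ C₀ : ℝ, 0 < C₀ ∧ ∀ (ν : ℝ), 0 < ν → ∀ U : ℝ → Cf, Tg ν U →
  ∀ (Z : Finset K3) (z : Cf), (0 : K3) ∉ Z → (∀ k ∉ Z, z k = 0) → Herm z → Dv z →
  ∀ ε : ℝ, 0 < ε → ∀ R : ℝ,
  ∃ (B : Finset K3) (w : Cf) (h : ℝ → ℝ) (a : ℝ → Cf), CSol ν a ∧ Tg ν a ∧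
    (∀ k, a 0 k = z k + w k) ∧ (∀ k ∉ B, w k = 0) ∧ (∀ k, len k ≤ R → w k = 0) ∧
    Continuous h ∧ (∀ s, 0 < s → h s ≤ ε / Real.sqrt s) ∧
    (∀ T, 0 ≤ T → ∫ s in (0 : ℝ)..T, h s ^ 2 ≤ C₀ * ν * ∑' k, ‖z k - U 0 k‖ / len k) ∧
    (∀ s, 0 ≤ s → ∑ k ∈ B, ht s k * ‖w k‖ ≤ h s) ∧
    (∀ t, 0 ≤ t → ∃ e : K3 → ℝ, (∀ k, 0 ≤ e k) ∧ e 0 = 0 ∧ Summable e ∧ ∑' k, e k / len k ≤ ε ∧
      ∀ s, 0 ≤ s → ∀ A : Finset K3, ∑ k ∈ A, ht s k * ‖a t k - U t k‖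
        ≤ C₀ * (∑' k, ht s k * ‖z k - U 0 k‖) + h s + ∑' k, ht s k * e k) ∧
    (∀ T, 0 ≤ T → ∀ A : Finset K3, ∫ t in (0 : ℝ)..T, (∑ k ∈ A, ‖a t k - U t k‖) ^ 2
      ≤ C₀ * (∑' k, ‖z k - U 0 k‖ / len k) + C₀) ∧
    ∀ t, ε ≤ t → ∀ A : Finset K3, ∑ k ∈ A, ‖a t k - U t k‖ ≤ ε

/-- **Piece P4.** Uniform smoothing: a bound of the sum norm gives uniform exponential decay a
little later. -/
def StmSmooth : Prop := ∀ (ν : ℝ), 0 < ν → ∀ (M τ : ℝ), 0 < τ → ∃ μ > 0, ∃ C : ℝ,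
  ∀ a : ℝ → Cf, CSol ν a → ∀ s : ℝ, 0 ≤ s →
  (∀ t, s ≤ t → ∀ A : Finset K3, ∑ k ∈ A, ‖a t k‖ ≤ M) →
  ∀ t, s + τ ≤ t → ∀ k, ‖a t k‖ ≤ C * Real.exp (-(μ * len k))

/-- **Piece P5.** Limits of solutions. -/
def StmLim : Prop := ∀ (ν : ℝ), 0 < ν → ∀ (a : ℕ → ℝ → Cf) (ε : ℕ → ℝ),
  (∀ j, CSol ν (a j)) → (∀ j, 0 < ε j) → Antitone ε → Summable ε →
  (∀ j t, ε j ≤ t → ∀ A : Finset K3, ∑ k ∈ A, ‖a (j + 1) t k - a j t k‖ ≤ ε j) →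
  ∃ b : ℝ → Cf, (∀ τ : ℝ, 0 < τ → CSol ν (fun t => b (t + τ))) ∧
    ∀ t, 0 < t → ∀ k, Tendsto (fun j => a j t k) atTop (𝓝 (b t k))

/-- **Piece P6.** From coefficients to fields, for positive times. -/
def StmPhys2 : Prop := ∀ (ν : ℝ) (b : ℝ → Cf), (∀ τ : ℝ, 0 < τ → CSol ν (fun t => b (t + τ))) →
  ∀ m : V, ∃ p : ℝ → V → ℝ, OSol ν (fun t x => m + fld b t (x - t • m)) p

/-- The `q`-th power of the Besov norm for families of coefficients, with the sum norm. -/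
noncomputable def besC (q : ℝ) (c : K3 → ℝ) : ℝ≥0∞ :=
  ∫⁻ s in Ioi (0 : ℝ), (ENNReal.ofReal (Real.sqrt s) * ∑' k, ENNReal.ofReal (ht s k * c k)) ^ q
    / ENNReal.ofReal s

/-- **Piece P7.** The elementary bounds of `besC`. -/
def StmBes : Prop := ∀ q : ℝ, 2 < q →
  (∃ C : ℝ, 0 < C ∧ ∀ c : K3 → ℝ, (∀ k, 0 ≤ c k) → c 0 = 0 → Summable c →
    besC q c ≤ ENNReal.ofReal (C * (∑' k, c k / len k) ^ q)) ∧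
  (∀ (c : K3 → ℝ) (h : ℝ → ℝ) (δ H : ℝ), 0 ≤ δ → (∀ k, 0 ≤ c k) → Continuous h →
    (∀ s, 0 < s → h s ≤ δ / Real.sqrt s) → (∀ T, 0 ≤ T → ∫ s in (0 : ℝ)..T, h s ^ 2 ≤ H) →
    (∀ s, 0 < s → ∀ A : Finset K3, ∑ k ∈ A, ht s k * c k ≤ h s) →
    besC q c ≤ ENNReal.ofReal (δ ^ (q - 2) * H))

/-- **Theorem 1** (replaces `StmMain`): every smooth field `u₀` and every global smooth solution
`U` with the same mean are joined by global smooth solutions `u`, from `u₀ + w` to `U`. -/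
def StmFlow : Prop := ∃ C : ℝ, 0 < C ∧ ∀ (ν : ℝ), 0 < ν → ∀ u₀ : V → V, ContDiff ℝ ∞ u₀ →
  Per u₀ → (∀ x, ∑ i, pd i (fun y => u₀ y i) x = 0) → ∀ (U : ℝ → V → V) (P : ℝ → V → ℝ),
  (∀ T, IsSol ν T U P) → (∀ i, ∫ x in cube, U 0 x i = ∫ x in cube, u₀ x i) →
  ∀ δ : ℝ, 0 < δ → ∀ R : ℝ,
  ∃ (u : ℝ → V → V) (p : ℝ → V → ℝ), (∀ T, IsSol ν T u p) ∧
    (∀ k, len k ≤ R → vf (u 0) k = vf u₀ k) ∧
    (∃ h : ℝ → ℝ, (∀ t, 0 < t → (∀ x i, |heat t (fun y => u 0 y i - u₀ y i) x| ≤ h t) ∧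
        h t ≤ δ / Real.sqrt t) ∧
      IntegrableOn (fun t => h t ^ 2) (Ioi 0) ∧
      ∫ t in Ioi (0 : ℝ), h t ^ 2 ≤ C * ν * ∑' k, ‖vf u₀ k - vf (U 0) k‖ / len k) ∧
    ∀ t, δ ≤ t → ∀ x i, |u t x i - U t x i| ≤ δ

/-- **Theorem 2**: for every smooth field `u₀` and every global smooth solution `U` with the same
mean there is a solution `u`, smooth for all positive times, with `u t → u₀` as `t → 0` in the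
homogeneous Besov spaces of order `-1` with indices `∞, q` for all `q > 2`, in `L^r` in time with
values in `L^∞` for all `r < 2`, which is as close to `U` as one likes for `t ≥ δ`. -/
def StmInit : Prop := ∀ (ν : ℝ), 0 < ν → ∀ u₀ : V → V, ContDiff ℝ ∞ u₀ →
  Per u₀ → (∀ x, ∑ i, pd i (fun y => u₀ y i) x = 0) → ∀ (U : ℝ → V → V) (P : ℝ → V → ℝ),
  (∀ T, IsSol ν T U P) → (∀ i, ∫ x in cube, U 0 x i = ∫ x in cube, u₀ x i) →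
  ∀ δ : ℝ, 0 < δ →
  ∃ (u : ℝ → V → V) (p : ℝ → V → ℝ), OSol ν u p ∧
    (∀ q : ℝ, 2 < q → ∀ i, Tendsto (fun t => bes q (fun x => u t x i - u₀ x i)) (𝓝[>] 0) (𝓝 0)) ∧
    (∃ h : ℝ → ℝ, (∀ t, 0 < t → ∀ x i, |u t x i| ≤ h t) ∧
      ∀ r : ℝ, 0 < r → r < 2 → IntegrableOn (fun t => h t ^ r) (Ioc 0 1)) ∧
    ∀ t, δ ≤ t → ∀ x i, |u t x i - U t x i| ≤ δ

end Pool.Agent.Run7.h782.GS
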