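import Pool.Agent.Run7.h782.GS.Defs

/-!
The infinite iteration, in coefficients.
-/

set_option autoImplicit false

open MeasureTheory Set Filter Topology
open scoped ContDiff ENNReal

namespace Pool.Agent.Run7.h782.GS

open H459R3.NS Pool.Agent.Run7.h782.GD

/-- **Piece P8.** The infinite iteration of `StmStep`: for every summable family `c` and every
target `U` there is a solution `b` for all positive times, which attains `c` at `t = 0` and
follows `U`.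

Proof: let `L 0 < L 1 < …` and `z j` be the restriction of `c` to `0 < |k| ≤ L j`, with
`∑ |k| > L j, ‖c k‖ ≤ 2^(-j)`. Let `a 0` be given by `StmStep` for the target `U`, the datum `z 0`
and `ε 0`, and `a (j+1)` by `StmStep` for the target `a j`, the datum `z (j+1)` and `ε (j+1)`.
Here `ε j` is chosen when `Γ j = ∑' ‖z j - a (j-1) 0‖ / |k|` is known, so small that
`ε j ≤ 2^(-j-2) δ`, `ε j ≤ ε (j-1)`, `ε j ^ (1/(j+1)) * (C₀ ν Γ j + 1) ≤ 2^(-j)` (hence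
`ε j ^ (q-2) * (C₀ ν Γ j) ≤ 2^(-j)` for `q - 2 ≥ 1/(j+1)`) and
`(C₀ Γ j + C₀) * ε j ^ (1/(j+1)) ≤ 2^(-j)` (hence
`∫₀¹ (∑ ‖a j - a (j-1)‖)^r ≤ (C₀ Γ j + C₀)^(r/2) ε j ^ (1-r/2) + ε j ^ r` is summable for every
`r < 2`). `b = lim a j` by `StmLim`. The difference `z (j+1) - a j 0 = (z (j+1) - z j) - w j`
has `besC q` at most `C ((2^(-j))^q + ε j ^ (q-2) C₀ ν Γ j)`, so that by the last but two clause of
`StmStep` `besC q (‖a (j+1) t - a j t‖)` is summable (after the `q`-th root), uniformly in `t ≥ 0`;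
and for fixed `j`, `∑' ‖a j t - a j 0‖ → 0` as `t → 0`. -/
def StmIter : Prop := ∀ (ν : ℝ), 0 < ν → ∀ U : ℝ → Cf, Tg ν U → ∀ c : Cf, c 0 = 0 → Herm c →
  Dv c → (Summable fun k => ‖c k‖) → ∀ δ : ℝ, 0 < δ →
  ∃ b : ℝ → Cf, (∀ τ : ℝ, 0 < τ → CSol ν (fun t => b (t + τ))) ∧
    (∀ q : ℝ, 2 < q → Tendsto (fun t => besC q (fun k => ‖b t k - c k‖)) (𝓝[>] 0) (𝓝 0)) ∧
    (∀ r : ℝ, 0 < r → r < 2 → IntegrableOn (fun t => (∑' k, ‖b t k‖) ^ r) (Ioc 0 1)) ∧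
    ∀ t, δ ≤ t → ∀ A : Finset K3, ∑ k ∈ A, ‖b t k - U t k‖ ≤ δ

end Pool.Agent.Run7.h782.GS
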