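import Pool.Agent.Run7.h782.GS.Nrm

/-!
Bilinear estimates in weighted sum norms; pieces P1 and P3.
-/

set_option autoImplicit false

open MeasureTheory Set Filter Topology
open scoped ContDiff ComplexConjugate NNReal

namespace Pool.Agent.Run7.h782.GS

open H459R3.NS Pool.Agent.Run7.h782.GD

/-- The four norms. -/
noncomputable def Nm (a : Cf) : ℝ := W (fun k => (len k)⁻¹) a
/-- The sum norm. -/
noncomputable def N0 (a : Cf) : ℝ := W (fun _ => 1) a
/-- The norm with the weight `|k|`. -/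
noncomputable def N1 (a : Cf) : ℝ := W len a

theorem Nm_eq (a : Cf) : Nm a = ∑' k, ‖a k‖ / len k :=
  tsum_congr fun k => by rw [div_eq_inv_mul]

theorem N0_eq (a : Cf) : N0 a = ∑' k, ‖a k‖ := tsum_congr fun k => one_mul _

theorem Nm_nonneg (a : Cf) : 0 ≤ Nm a := W_nonneg wt_inv a
theorem N0_nonneg (a : Cf) : 0 ≤ N0 a := W_nonneg wt_one a
theorem N1_nonneg (a : Cf) : 0 ≤ N1 a := W_nonneg wt_len a

theorem l1_inv {a : Cf} (ha : L1 a) : Summable fun k => (len k)⁻¹ * ‖a k‖ :=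
  Summable.of_nonneg_of_le (fun k => mul_nonneg (wt_inv.1 k) (norm_nonneg _))
    (fun k => (mul_le_mul_of_nonneg_right (wt_inv.2 k) (norm_nonneg _)).trans
      (le_of_eq (by rw [pow_zero, one_mul]))) ha

/-- `‖div (a ⊗ b)‖₋₁ ≤ C ‖a‖₀ ‖b‖₀`. -/
theorem Nm_nl_le {a b : Cf} (ha : L1 a) (hb : L1 b) :
    Nm (nl a b) ≤ 24 * Real.pi * (N0 a * N0 b) := by
  rw [Nm_eq]
  refine Real.tsum_le_of_sum_le (fun k => div_nonneg (norm_nonneg _) (len_nonneg k)) fun A => ?_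
  have h := sum_nl_le (a := a) (b := b) (μ := 0) le_rfl (by simpa [L1] using ha)
    (by simpa [L1] using hb) A
  simp only [zero_mul, Real.exp_zero, one_mul] at h
  rw [N0_eq, N0_eq, ← mul_assoc]
  exact h

/-- `‖div (a ⊗ b)‖₀ ≤ C (‖a‖₁ ‖b‖₀ + ‖a‖₀ ‖b‖₁)`. -/
theorem N0_nl_le {a b : Cf} (ha : L1 a) (hb : L1 b) (ha1 : Summable fun k => len k * ‖a k‖)
    (hb1 : Summable fun k => len k * ‖b k‖) :
    N0 (nl a b) ≤ 24 * Real.pi * (N1 a * N0 b + N0 a * N1 b) := by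
  have hpi := Real.pi_pos
  rw [N0_eq]
  refine Real.tsum_le_of_sum_le (fun k => norm_nonneg _) fun A => ?_
  have hb0 : ∀ k : K3, 0 ≤ len k * ‖b k‖ := fun k => mul_nonneg (len_nonneg k) (norm_nonneg _)
  have ha0 : ∀ k : K3, 0 ≤ len k * ‖a k‖ := fun k => mul_nonneg (len_nonneg k) (norm_nonneg _)
  have key : ∀ k, ‖nl a b k‖ ≤ 24 * Real.pi *
      ((∑' p, (len p * ‖a p‖) * ‖b (k - p)‖) + ∑' p, ‖a p‖ * (len (k - p) * ‖b (k - p)‖)) := by
    intro k
    have c1 := summable_conv ha0 (fun k => norm_nonneg (b k)) ha1 hb k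
    have c2 := summable_conv (fun k => norm_nonneg (a k)) hb0 ha hb1 k
    have c0 := summable_conv (fun k => norm_nonneg (a k)) (fun k => norm_nonneg (b k)) ha hb k
    refine (norm_nl_le ha hb k).trans ?_
    rw [mul_assoc]
    refine mul_le_mul_of_nonneg_left ?_ (by positivity)
    rw [← tsum_mul_left, ← c1.tsum_add c2]
    refine Summable.tsum_le_tsum (fun p => ?_) (c0.mul_left _) (c1.add c2)
    have h1 := mul_le_mul_of_nonneg_right (len_le_add k p)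
      (mul_nonneg (norm_nonneg (a p)) (norm_nonneg (b (k - p))))
    refine h1.trans (le_of_eq ?_)
    ring
  calc ∑ k ∈ A, ‖nl a b k‖ ≤ ∑ k ∈ A, 24 * Real.pi *
        ((∑' p, (len p * ‖a p‖) * ‖b (k - p)‖) + ∑' p, ‖a p‖ * (len (k - p) * ‖b (k - p)‖)) :=
        Finset.sum_le_sum fun k _ => key k
    _ = 24 * Real.pi * ((∑ k ∈ A, ∑' p, (len p * ‖a p‖) * ‖b (k - p)‖)
        + ∑ k ∈ A, ∑' p, ‖a p‖ * (len (k - p) * ‖b (k - p)‖)) := by
        rw [← Finset.mul_sum, Finset.sum_add_distrib]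
    _ ≤ 24 * Real.pi * (N1 a * N0 b + N0 a * N1 b) := by
        refine mul_le_mul_of_nonneg_left (add_le_add ?_ ?_) (by positivity)
        · rw [N0_eq]
          exact sum_conv_le ha0 (fun k => norm_nonneg (b k)) ha1 hb A
        · rw [N0_eq]
          exact sum_conv_le (fun k => norm_nonneg (a k)) hb0 ha hb1 A

/-- `‖a‖₀² ≤ ‖a‖₋₁ ‖a‖₁` for families with vanishing mean. -/
theorem N0_sq_le {a : Cf} (h0 : a 0 = 0) (ha : L1 a) (ha1 : Summable fun k => len k * ‖a k‖) :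
    N0 a ^ 2 ≤ Nm a * N1 a := by
  classical
  have h1 : N0 a ≤ Real.sqrt (Nm a * N1 a) := by
    rw [N0_eq]
    refine Real.tsum_le_of_sum_le (fun k => norm_nonneg _) fun A => ?_
    apply Real.le_sqrt_of_sq_le
    have e : ∑ k ∈ A, ‖a k‖ = ∑ k ∈ A, Real.sqrt ((len k)⁻¹ * ‖a k‖) * Real.sqrt (len k * ‖a k‖) := by
      refine Finset.sum_congr rfl fun k _ => ?_
      by_cases hk : k = 0
      · subst hk
        rw [h0]
        simp
      have hl := len_pos hk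
      rw [← Real.sqrt_mul (mul_nonneg (inv_nonneg.2 hl.le) (norm_nonneg _))]
      have : (len k)⁻¹ * ‖a k‖ * (len k * ‖a k‖) = ‖a k‖ ^ 2 := by
        field_simp
      rw [this, Real.sqrt_sq (norm_nonneg _)]
    rw [e]
    refine (Finset.sum_mul_sq_le_sq_mul_sq A _ _).trans ?_
    have e1 : ∀ k, Real.sqrt ((len k)⁻¹ * ‖a k‖) ^ 2 = (len k)⁻¹ * ‖a k‖ := fun k =>
      Real.sq_sqrt (mul_nonneg (inv_nonneg.2 (len_nonneg k)) (norm_nonneg _))
    have e2 : ∀ k, Real.sqrt (len k * ‖a k‖) ^ 2 = len k * ‖a k‖ := fun k =>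
      Real.sq_sqrt (mul_nonneg (len_nonneg k) (norm_nonneg _))
    simp_rw [e1, e2]
    exact mul_le_mul (sum_le_W wt_inv (l1_inv ha) A) (sum_le_W wt_len ha1 A)
      (Finset.sum_nonneg fun k _ => mul_nonneg (len_nonneg k) (norm_nonneg _)) (Nm_nonneg a)
  have h2 : 0 ≤ Nm a * N1 a := mul_nonneg (Nm_nonneg a) (N1_nonneg a)
  calc N0 a ^ 2 ≤ Real.sqrt (Nm a * N1 a) ^ 2 := pow_le_pow_left₀ (N0_nonneg a) h1 2
    _ = _ := Real.sq_sqrt h2

theorem W_mono {a : Cf} {w w' : K3 → ℝ} (h : ∀ k, w k * ‖a k‖ ≤ w' k * ‖a k‖)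
    (h1 : Summable fun k => w k * ‖a k‖) (h2 : Summable fun k => w' k * ‖a k‖) :
    W w a ≤ W w' a := Summable.tsum_le_tsum h h1 h2

theorem le_len {a : Cf} (h0 : a 0 = 0) (k : K3) : ‖a k‖ ≤ len k * ‖a k‖ := by
  by_cases hk : k = 0
  · subst hk; rw [h0]; simp
  · exact le_mul_of_one_le_left (norm_nonneg _) (one_le_len hk)

theorem inv_le {a : Cf} (k : K3) : (len k)⁻¹ * ‖a k‖ ≤ ‖a k‖ :=
  mul_le_of_le_one_left (norm_nonneg _) (by simpa using wt_inv.2 k)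

theorem Nm_le_N0 {a : Cf} (ha : L1 a) : Nm a ≤ N0 a := by
  rw [N0_eq]
  exact Summable.tsum_le_tsum (fun k => inv_le k) (l1_inv ha) ha

theorem N0_le_N1 {a : Cf} (h0 : a 0 = 0) (ha : L1 a) (ha1 : Summable fun k => len k * ‖a k‖) :
    N0 a ≤ N1 a := by
  rw [N0_eq]
  exact Summable.tsum_le_tsum (fun k => le_len h0 k) ha ha1

variable {ν : ℝ}

theorem LSol.cnt {U : ℝ → Cf} (H : LSol ν U) : Cnt U :=
  fun k t ht => (H.der t ht k).continuousWithinAt

theorem pow_exp_bd {μ : ℝ} (hμ : 0 < μ) (n : ℕ) : ∃ C : ℝ, 0 ≤ C ∧ ∀ x : ℝ, 0 ≤ x →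
    (1 + x) ^ n ≤ C * Real.exp (μ * x) := by
  refine ⟨(1 + μ⁻¹ * (n + 1)) ^ (n + 1), by positivity, fun x hx => ?_⟩
  have h1 : 1 + x ≤ (1 + μ⁻¹ * (n + 1)) * Real.exp (μ * x / (n + 1)) := by
    have hn : (0 : ℝ) < n + 1 := by positivity
    have h2 := Real.add_one_le_exp (μ * x / (n + 1))
    have h3 : 0 ≤ μ * x / (n + 1) := by positivity
    have h4 : 0 ≤ μ⁻¹ * (n + 1) := by positivity
    have h5 : (1 + μ⁻¹ * (n + 1)) * (μ * x / (n + 1) + 1)
        = 1 + x + μ * x / (n + 1) + μ⁻¹ * (n + 1) := by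
      field_simp
      ring
    calc 1 + x ≤ (1 + μ⁻¹ * (n + 1)) * (μ * x / (n + 1) + 1) := by rw [h5]; linarith
      _ ≤ _ := mul_le_mul_of_nonneg_left h2 (by positivity)
  have h0 : (1 + x) ^ n ≤ (1 + x) ^ (n + 1) := pow_le_pow_right₀ (by linarith) (Nat.le_succ n)
  refine h0.trans ((pow_le_pow_left₀ (by linarith) h1 _).trans (le_of_eq ?_))
  rw [mul_pow, ← Real.exp_nat_mul]
  congr 2
  push_cast
  field_simp

theorem _root_.Pool.Agent.Run7.h782.GD.CSol.maj {a : ℝ → Cf} (H : CSol ν a) : GS.Maj a := by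
  intro n T
  obtain ⟨μ, hμ, C, hC⟩ := H.dec
  obtain ⟨D, hD0, hD⟩ := pow_exp_bd (μ := μ / 2) (by positivity) n
  have hC0 : 0 ≤ C := by
    have h5 := (norm_nonneg _).trans (hC 0 le_rfl 0)
    exact nonneg_of_mul_nonneg_left h5 (Real.exp_pos _)
  refine ⟨fun k => D * C * Real.exp (-(μ / 2 * len k)),
    (summable_exp_len (by positivity)).mul_left _, fun t ht k => ?_⟩
  calc (1 + len k) ^ n * ‖a t k‖
      ≤ (D * Real.exp (μ / 2 * len k)) * (C * Real.exp (-(μ * len k))) :=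
        mul_le_mul (hD _ (len_nonneg k)) (hC t ht.1 k) (norm_nonneg _) (by positivity)
    _ = D * C * (Real.exp (μ / 2 * len k) * Real.exp (-(μ * len k))) := by ring
    _ = _ := by
      rw [← Real.exp_add]
      congr 2
      ring

theorem _root_.Pool.Agent.Run7.h782.GD.CSol.lsol {a : ℝ → Cf} (H : CSol ν a) : LSol ν a where
  zero := H.zero
  herm := H.herm
  div := H.div
  der := H.der
  maj := H.maj

end Pool.Agent.Run7.h782.GS
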