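import Pool.Agent.Run7.h782.GS.Defs
import Pool.Agent.Run7.h782.GD.Lim
import Pool.Agent.Run7.h782.GD.Dec

/-!
Weighted sum norms of families of coefficients depending on time.
-/

set_option autoImplicit false

open MeasureTheory Set Filter Topology
open scoped ContDiff ComplexConjugate NNReal

namespace Pool.Agent.Run7.h782.GS

open H459R3.NS Pool.Agent.Run7.h782.GD

/-- Rapid decay in the frequency, locally uniformly in time. -/
def Maj (f : ℝ → Cf) : Prop := ∀ (n : ℕ) (T : ℝ), ∃ A : K3 → ℝ, Summable A ∧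
  ∀ t ∈ Icc 0 T, ∀ k, (1 + len k) ^ n * ‖f t k‖ ≤ A k

/-- Continuity of every coefficient. -/
def Cnt (f : ℝ → Cf) : Prop := ∀ k, ContinuousOn (fun t => f t k) (Ici 0)

/-- The weighted sum norm. -/
noncomputable def W (w : K3 → ℝ) (a : Cf) : ℝ := ∑' k, w k * ‖a k‖

/-- Weights of polynomial growth. -/
def Wt (n : ℕ) (w : K3 → ℝ) : Prop := (∀ k, 0 ≤ w k) ∧ ∀ k, w k ≤ (1 + len k) ^ n

theorem one_le_p (k : K3) (n : ℕ) : 1 ≤ (1 + len k) ^ n :=
  one_le_pow₀ (by have := len_nonneg k; linarith)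

theorem wt_one : Wt 0 fun _ => 1 := ⟨fun _ => zero_le_one, fun _ => by simp⟩

theorem wt_len : Wt 1 len := ⟨len_nonneg, fun k => by rw [pow_one]; linarith⟩

theorem wt_len2 : Wt 2 fun k => len k ^ 2 := ⟨fun k => by positivity, fun k =>
  pow_le_pow_left₀ (len_nonneg k) (by linarith) 2⟩

theorem wt_inv : Wt 0 fun k => (len k)⁻¹ := ⟨fun k => inv_nonneg.2 (len_nonneg k), fun k => by
  rw [pow_zero]
  by_cases hk : k = 0
  · subst hk; simp
  · exact inv_le_one_of_one_le₀ (one_le_len hk)⟩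

theorem Maj.l1 {f : ℝ → Cf} (hf : Maj f) {t : ℝ} (ht : 0 ≤ t) : L1 (f t) := by
  obtain ⟨A, hA, h⟩ := hf 0 t
  refine Summable.of_nonneg_of_le (fun _ => norm_nonneg _) (fun k => ?_) hA
  simpa using h t ⟨ht, le_rfl⟩ k

theorem Maj.sum {f : ℝ → Cf} (hf : Maj f) {n : ℕ} {w : K3 → ℝ} (hw : Wt n w) {t : ℝ}
    (ht : 0 ≤ t) : Summable fun k => w k * ‖f t k‖ := by
  obtain ⟨A, hA, h⟩ := hf n t
  exact Summable.of_nonneg_of_le (fun k => mul_nonneg (hw.1 k) (norm_nonneg _)) (fun k =>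
    (mul_le_mul_of_nonneg_right (hw.2 k) (norm_nonneg _)).trans (h t ⟨ht, le_rfl⟩ k)) hA

theorem W_nonneg {n : ℕ} {w : K3 → ℝ} (hw : Wt n w) (a : Cf) : 0 ≤ W w a :=
  tsum_nonneg fun k => mul_nonneg (hw.1 k) (norm_nonneg _)

theorem sum_le_W {a : Cf} {n : ℕ} {w : K3 → ℝ} (hw : Wt n w)
    (hs : Summable fun k => w k * ‖a k‖) (A : Finset K3) : ∑ k ∈ A, w k * ‖a k‖ ≤ W w a :=
  hs.sum_le_tsum A fun k _ => mul_nonneg (hw.1 k) (norm_nonneg _)

theorem Maj.cont {f : ℝ → Cf} (hf : Maj f) (hc : Cnt f) {n : ℕ} {w : K3 → ℝ} (hw : Wt n w) :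
    ContinuousOn (fun t => W w (f t)) (Ici 0) := by
  have h1 : ∀ T : ℝ, ContinuousOn (fun t => W w (f t)) (Icc 0 T) := by
    intro T
    obtain ⟨A, hA, h⟩ := hf n T
    refine continuousOn_tsum (u := A) (fun k => ?_) hA fun k t ht => ?_
    · exact continuousOn_const.mul ((hc k).mono Icc_subset_Ici_self).norm
    · rw [Real.norm_of_nonneg (mul_nonneg (hw.1 k) (norm_nonneg _))]
      exact (mul_le_mul_of_nonneg_right (hw.2 k) (norm_nonneg _)).trans (h t ht k)
  intro t ht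
  refine ((h1 (t + 1)) t ⟨ht, by linarith⟩).mono_of_mem_nhdsWithin ?_
  rw [mem_nhdsWithin]
  exact ⟨Iio (t + 1), isOpen_Iio, by simp, fun x hx => ⟨hx.2, (hx.1 : x < t + 1).le⟩⟩

/-- The tails are uniformly small. -/
theorem Maj.tail {f : ℝ → Cf} (hf : Maj f) {n : ℕ} {w : K3 → ℝ} (hw : Wt n w) (T : ℝ)
    {ε : ℝ} (hε : 0 < ε) : ∀ᶠ A : Finset K3 in atTop, ∀ t ∈ Icc 0 T,
      W w (f t) ≤ ∑ k ∈ A, w k * ‖f t k‖ + ε := by
  obtain ⟨b, hb, h⟩ := hf n T
  filter_upwards [(tendsto_tsum_compl_atTop_zero b).eventually (gt_mem_nhds hε)] with A hA t ht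
  have hs := hf.sum hw ht.1
  have h1 : ∀ k, w k * ‖f t k‖ ≤ b k := fun k =>
    (mul_le_mul_of_nonneg_right (hw.2 k) (norm_nonneg _)).trans (h t ht k)
  rw [W, ← hs.sum_add_tsum_compl (s := A)]
  refine add_le_add le_rfl (le_trans ?_ hA.le)
  exact (hs.subtype _).tsum_le_tsum (fun k => h1 k) (hb.subtype _)

theorem ii {g : ℝ → ℝ} (hg : ContinuousOn g (Ici 0)) {s t : ℝ} (hs : 0 ≤ s) (hst : s ≤ t) :
    IntervalIntegrable g volume s t := by
  refine ContinuousOn.intervalIntegrable ?_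
  rw [uIcc_of_le hst]
  exact hg.mono fun r hr => hs.trans hr.1

theorem int_W_le {f : ℝ → Cf} (hf : Maj f) (hc : Cnt f) {n : ℕ} {w : K3 → ℝ} (hw : Wt n w)
    {s t M : ℝ} (hs : 0 ≤ s) (hst : s ≤ t)
    (h : ∀ A : Finset K3, ∫ r in s..t, ∑ k ∈ A, w k * ‖f r k‖ ≤ M) :
    ∫ r in s..t, W w (f r) ≤ M := by
  refine le_of_forall_pos_le_add fun ε hε => ?_
  obtain ⟨A, hA⟩ := (hf.tail hw t (ε := ε / (t - s + 1)) (by
    have : 0 ≤ t - s := sub_nonneg.2 hst
    positivity)).exists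
  have hcA : ContinuousOn (fun r => ∑ k ∈ A, w k * ‖f r k‖) (Ici 0) :=
    continuousOn_finsetSum _ fun k _ => continuousOn_const.mul (hc k).norm
  have h1 : ∫ r in s..t, W w (f r) ≤ ∫ r in s..t, (∑ k ∈ A, w k * ‖f r k‖ + ε / (t - s + 1)) := by
    refine intervalIntegral.integral_mono_on hst (ii (hf.cont hc hw) hs hst)
      ((ii hcA hs hst).add intervalIntegrable_const) fun r hr => hA r ⟨hs.trans hr.1, hr.2⟩
  rw [intervalIntegral.integral_add (ii hcA hs hst) intervalIntegrable_const,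
    intervalIntegral.integral_const, smul_eq_mul] at h1
  have h2 : (t - s) * (ε / (t - s + 1)) ≤ ε := by
    have h3 : 0 ≤ t - s := sub_nonneg.2 hst
    rw [mul_div_assoc', div_le_iff₀ (by positivity)]
    nlinarith
  linarith [h A]

/-- The integrated inequality of a damped family. -/
theorem energy {ν : ℝ} (hν : 0 ≤ ν) {y G : ℝ → Cf} (hy : Maj y) (hyc : Cnt y) (hG : Maj G)
    (hGc : Cnt G) (hd : ∀ t, 0 ≤ t → ∀ k, HasDerivWithinAt (fun s => y s k)
      (-(lam ν k : ℂ) • y t k + G t k) (Ici 0) t)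
    {n : ℕ} {w : K3 → ℝ} (hw : Wt n w) {s t : ℝ} (hs : 0 ≤ s) (hst : s ≤ t) :
    W w (y t) + 4 * Real.pi ^ 2 * ν * ∫ r in s..t, W (fun k => w k * len k ^ 2) (y r)
      ≤ W w (y s) + ∫ r in s..t, W w (G r) := by
  have hw2 : Wt (n + 2) fun k => w k * len k ^ 2 := ⟨fun k => mul_nonneg (hw.1 k) (by positivity),
    fun k => by
      rw [pow_add]
      exact mul_le_mul (hw.2 k) (wt_len2.2 k) (by positivity) (zero_le_one.trans (one_le_p k n))⟩
  have key : ∀ A : Finset K3, ∑ k ∈ A, w k * ‖y t k‖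
      + 4 * Real.pi ^ 2 * ν * ∫ r in s..t, ∑ k ∈ A, (w k * len k ^ 2) * ‖y r k‖
      ≤ W w (y s) + ∫ r in s..t, W w (G r) := by
    intro A
    have h1 : ∀ k ∈ A, ‖y t k‖ + lam ν k * ∫ r in s..t, ‖y r k‖
        ≤ ‖y s k‖ + ∫ r in s..t, ‖G r k‖ := by
      intro k _
      refine damped (y := fun r => y r k) (G := fun r => G r k) (l := lam ν k) (by
          rw [lam]
          have := sq_nonneg' k
          positivity) hst
        ((hyc k).mono fun r hr => hs.trans hr.1) ((hGc k).mono fun r hr => hs.trans hr.1)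
        (fun r hr => ?_)
      have h3 := (hd r (hs.trans hr.1.le) k).hasDerivAt (Ici_mem_nhds (hs.trans_lt hr.1))
      refine h3.congr_deriv ?_
      have : (lam ν k : ℂ) • y r k = lam ν k • y r k := by
        funext i
        simp
      rw [neg_smul, this]
    have hic : ∀ k, IntervalIntegrable (fun r => ‖y r k‖) volume s t := fun k =>
      ii (hyc k).norm hs hst
    have hin : ∀ k, IntervalIntegrable (fun r => ‖G r k‖) volume s t := fun k =>
      ii (hGc k).norm hs hst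
    have h2 : ∑ k ∈ A, w k * ‖y t k‖
        + 4 * Real.pi ^ 2 * ν * ∫ r in s..t, ∑ k ∈ A, (w k * len k ^ 2) * ‖y r k‖
        ≤ ∑ k ∈ A, w k * ‖y s k‖ + ∫ r in s..t, ∑ k ∈ A, w k * ‖G r k‖ := by
      rw [intervalIntegral.integral_finsetSum fun k _ => (hic k).const_mul _,
        intervalIntegral.integral_finsetSum fun k _ => (hin k).const_mul _, Finset.mul_sum,
        ← Finset.sum_add_distrib, ← Finset.sum_add_distrib]
      refine Finset.sum_le_sum fun k hk => ?_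
      have h3 := mul_le_mul_of_nonneg_left (h1 k hk) (hw.1 k)
      rw [intervalIntegral.integral_const_mul, intervalIntegral.integral_const_mul]
      refine le_trans (le_of_eq ?_) (h3.trans (le_of_eq ?_))
      · rw [lam, len_sq]
        ring
      · ring
    refine h2.trans (add_le_add (sum_le_W hw (hy.sum hw hs) A) ?_)
    refine intervalIntegral.integral_mono_on hst ?_ (ii (hG.cont hGc hw) hs hst) fun r hr =>
      sum_le_W hw (hG.sum hw (hs.trans hr.1)) A
    exact ii (continuousOn_finsetSum _ fun k _ => continuousOn_const.mul (hGc k).norm) hs hst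
  -- pass to the limit
  refine le_of_forall_pos_le_add fun ε hε => ?_
  set θ : ℝ := 4 * Real.pi ^ 2 * ν with hθ
  have hθ0 : 0 ≤ θ := by positivity
  have hts : 0 ≤ t - s := sub_nonneg.2 hst
  obtain ⟨A, hA1, hA2⟩ := ((hy.tail hw t (half_pos hε)).and
    (hy.tail hw2 t (ε := ε / (2 * ((θ + 1) * (t - s + 1)))) (by positivity))).exists
  have hcA : ContinuousOn (fun r => ∑ k ∈ A, (w k * len k ^ 2) * ‖y r k‖) (Ici 0) :=
    continuousOn_finsetSum _ fun k _ => continuousOn_const.mul (hyc k).norm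
  have h1 : ∫ r in s..t, W (fun k => w k * len k ^ 2) (y r)
      ≤ ∫ r in s..t, (∑ k ∈ A, (w k * len k ^ 2) * ‖y r k‖ + ε / (2 * ((θ + 1) * (t - s + 1)))) := by
    refine intervalIntegral.integral_mono_on hst (ii (hy.cont hyc hw2) hs hst)
      ((ii hcA hs hst).add intervalIntegrable_const) fun r hr => hA2 r ⟨hs.trans hr.1, hr.2⟩
  rw [intervalIntegral.integral_add (ii hcA hs hst) intervalIntegrable_const,
    intervalIntegral.integral_const, smul_eq_mul] at h1
  have h2 : θ * ((t - s) * (ε / (2 * ((θ + 1) * (t - s + 1))))) ≤ ε / 2 := by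
    have e : θ * ((t - s) * (ε / (2 * ((θ + 1) * (t - s + 1)))))
        = (θ / (θ + 1)) * ((t - s) / (t - s + 1)) * (ε / 2) := by
      field_simp
    rw [e]
    have a1 : θ / (θ + 1) ≤ 1 := (div_le_one (by positivity)).mpr (by linarith)
    have a2 : (t - s) / (t - s + 1) ≤ 1 := (div_le_one (by positivity)).mpr (by linarith)
    have a3 : 0 ≤ θ / (θ + 1) := by positivity
    have a4 : 0 ≤ (t - s) / (t - s + 1) := by positivity
    exact mul_le_of_le_one_left (by positivity) (mul_le_one₀ a1 a4 a2)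
  have h3 := mul_le_mul_of_nonneg_left h1 hθ0
  have h4 := hA1 t ⟨hs.trans hst, le_rfl⟩
  have h5 := key A
  rw [mul_add] at h3
  linarith

/-! ### Algebra of families -/

theorem Cnt.add {f g : ℝ → Cf} (hf : Cnt f) (hg : Cnt g) : Cnt (fun t => f t + g t) :=
  fun k => (hf k).add (hg k)

theorem Cnt.sub {f g : ℝ → Cf} (hf : Cnt f) (hg : Cnt g) : Cnt (fun t => f t - g t) :=
  fun k => (hf k).sub (hg k)

theorem Cnt.neg {f : ℝ → Cf} (hf : Cnt f) : Cnt (fun t => -f t) := fun k => (hf k).neg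

theorem Maj.add {f g : ℝ → Cf} (hf : Maj f) (hg : Maj g) : Maj (fun t => f t + g t) := by
  intro n T
  obtain ⟨A, hA, h1⟩ := hf n T
  obtain ⟨B, hB, h2⟩ := hg n T
  refine ⟨fun k => A k + B k, hA.add hB, fun t ht k => ?_⟩
  calc (1 + len k) ^ n * ‖(f t + g t) k‖ ≤ (1 + len k) ^ n * (‖f t k‖ + ‖g t k‖) :=
        mul_le_mul_of_nonneg_left (norm_add_le _ _) (zero_le_one.trans (one_le_p k n))
    _ ≤ _ := by rw [mul_add]; exact add_le_add (h1 t ht k) (h2 t ht k)

theorem Maj.neg {f : ℝ → Cf} (hf : Maj f) : Maj (fun t => -f t) := by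
  intro n T
  obtain ⟨A, hA, h1⟩ := hf n T
  refine ⟨A, hA, fun t ht k => ?_⟩
  show (1 + len k) ^ n * ‖-(f t k)‖ ≤ A k
  rw [norm_neg]
  exact h1 t ht k

theorem Maj.sub {f g : ℝ → Cf} (hf : Maj f) (hg : Maj g) : Maj (fun t => f t - g t) := by
  have h := hf.add hg.neg
  simpa only [sub_eq_add_neg] using h

theorem sum_shift_le {g : K3 → ℝ} (hg0 : ∀ k, 0 ≤ g k) (hg : Summable g) (A : Finset K3)
    (p : K3) : ∑ k ∈ A, g (k - p) ≤ ∑' q, g q := by
  have e := Finset.sum_map A (Equiv.subRight p).toEmbedding g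
  simp only [Equiv.coe_toEmbedding, Equiv.subRight_apply] at e
  rw [← e]
  exact hg.sum_le_tsum _ fun q _ => hg0 q

theorem sum_conv_le {f g : K3 → ℝ} (hf0 : ∀ k, 0 ≤ f k) (hg0 : ∀ k, 0 ≤ g k) (hf : Summable f)
    (hg : Summable g) (A : Finset K3) :
    ∑ k ∈ A, ∑' p, f p * g (k - p) ≤ (∑' p, f p) * ∑' q, g q := by
  rw [← Summable.tsum_finsetSum fun k _ => summable_conv hf0 hg0 hf hg k, ← tsum_mul_right]
  have hle : ∀ p, ∑ k ∈ A, f p * g (k - p) ≤ f p * ∑' q, g q := fun p => by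
    rw [← Finset.mul_sum]
    exact mul_le_mul_of_nonneg_left (sum_shift_le hg0 hg A p) (hf0 p)
  refine Summable.tsum_le_tsum hle ?_ (hf.mul_right _)
  exact Summable.of_nonneg_of_le
    (fun p => Finset.sum_nonneg fun k _ => mul_nonneg (hf0 p) (hg0 _)) hle (hf.mul_right _)

theorem summable_cv {f g : K3 → ℝ} (hf0 : ∀ k, 0 ≤ f k) (hg0 : ∀ k, 0 ≤ g k) (hf : Summable f)
    (hg : Summable g) : Summable fun k => ∑' p, f p * g (k - p) :=
  summable_of_sum_le (fun _ => tsum_nonneg fun p => mul_nonneg (hf0 p) (hg0 _))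
    (sum_conv_le hf0 hg0 hf hg)

theorem tsum_cv_le {f g : K3 → ℝ} (hf0 : ∀ k, 0 ≤ f k) (hg0 : ∀ k, 0 ≤ g k) (hf : Summable f)
    (hg : Summable g) : ∑' k, ∑' p, f p * g (k - p) ≤ (∑' p, f p) * ∑' q, g q :=
  Real.tsum_le_of_sum_le (fun _ => tsum_nonneg fun p => mul_nonneg (hf0 p) (hg0 _))
    (sum_conv_le hf0 hg0 hf hg)

theorem p_le (k p : K3) : 1 + len k ≤ (1 + len p) * (1 + len (k - p)) := by
  have h1 := len_le_add k p
  have h2 := len_nonneg p
  have h3 := len_nonneg (k - p)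
  nlinarith

theorem Maj.nl {f g : ℝ → Cf} (hf : Maj f) (hg : Maj g) : Maj (fun t => nl (f t) (g t)) := by
  intro n T
  obtain ⟨A, hA, h1⟩ := hf (n + 1) T
  obtain ⟨B, hB, h2⟩ := hg (n + 1) T
  by_cases hT : 0 ≤ T
  swap
  · exact ⟨0, summable_zero, fun t ht => absurd (ht.1.trans ht.2) hT⟩
  have hA0 : ∀ k, 0 ≤ A k := fun k => le_trans (by have := len_nonneg k; positivity)
    (h1 0 ⟨le_rfl, hT⟩ k)
  have hB0 : ∀ k, 0 ≤ B k := fun k => le_trans (by have := len_nonneg k; positivity)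
    (h2 0 ⟨le_rfl, hT⟩ k)
  have hpi := Real.pi_pos
  refine ⟨fun k => 24 * Real.pi * ∑' p, A p * B (k - p),
    (summable_cv hA0 hB0 hA hB).mul_left _, fun t ht k => ?_⟩
  have hfs := hf.l1 ht.1
  have hgs := hg.l1 ht.1
  have hc := summable_conv (fun _ => norm_nonneg _) (fun _ => norm_nonneg _) hfs hgs k
  have hp0 : 0 ≤ (1 + len k) ^ n := zero_le_one.trans (one_le_p k n)
  have h3 := mul_le_mul_of_nonneg_left (norm_nl_le hfs hgs k) hp0
  refine h3.trans ?_
  have h4 : (1 + len k) ^ n * len k * ∑' p, ‖f t p‖ * ‖g t (k - p)‖ ≤ ∑' p, A p * B (k - p) := by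
    rw [← tsum_mul_left]
    refine Summable.tsum_le_tsum (fun p => ?_) (hc.mul_left _) (summable_conv hA0 hB0 hA hB k)
    have h5 : (1 + len k) ^ n * len k ≤ ((1 + len p) * (1 + len (k - p))) ^ (n + 1) := by
      calc (1 + len k) ^ n * len k ≤ (1 + len k) ^ n * (1 + len k) :=
            mul_le_mul_of_nonneg_left (by linarith) hp0
        _ = (1 + len k) ^ (n + 1) := (pow_succ _ _).symm
        _ ≤ _ := pow_le_pow_left₀ (by have := len_nonneg k; linarith) (p_le k p) _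
    calc (1 + len k) ^ n * len k * (‖f t p‖ * ‖g t (k - p)‖)
        ≤ ((1 + len p) * (1 + len (k - p))) ^ (n + 1) * (‖f t p‖ * ‖g t (k - p)‖) :=
          mul_le_mul_of_nonneg_right h5 (by positivity)
      _ = ((1 + len p) ^ (n + 1) * ‖f t p‖) * ((1 + len (k - p)) ^ (n + 1) * ‖g t (k - p)‖) := by
          rw [mul_pow]; ring
      _ ≤ A p * B (k - p) := mul_le_mul (h1 t ht p) (h2 t ht (k - p))
          (by have := len_nonneg (k - p); positivity) (hA0 p)
  calc (1 + len k) ^ n * (24 * Real.pi * len k * ∑' p, ‖f t p‖ * ‖g t (k - p)‖)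
      = 24 * Real.pi * ((1 + len k) ^ n * len k * ∑' p, ‖f t p‖ * ‖g t (k - p)‖) := by ring
    _ ≤ _ := mul_le_mul_of_nonneg_left h4 (by positivity)

theorem Cnt.nl {f g : ℝ → Cf} (hf : Cnt f) (hg : Cnt g) (mf : Maj f) (mg : Maj g) :
    Cnt (fun t => nl (f t) (g t)) := by
  intro k
  have h1 : ∀ T : ℝ, ContinuousOn (fun t => ∑' p, kd k (f t p) • g t (k - p)) (Icc 0 T) := by
    intro T
    obtain ⟨A, hA, h1⟩ := mf 0 T
    obtain ⟨B, hB, h2⟩ := mg 0 T
    refine continuousOn_tsum (u := fun p => 3 * len k * (A p * (∑' q, |B q|))) (fun p => ?_) ?_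
      fun p t ht => ?_
    · have h2 : ContinuousOn (fun t => kd k (f t p)) (Icc 0 T) :=
        continuousOn_finsetSum _ fun j _ => continuousOn_const.mul
          ((continuous_apply j).comp_continuousOn ((hf p).mono Icc_subset_Ici_self))
      exact h2.smul ((hg (k - p)).mono Icc_subset_Ici_self)
    · exact (hA.mul_right _).mul_left _
    · refine (norm_term_le k (f t p) (g t (k - p))).trans ?_
      refine mul_le_mul_of_nonneg_left ?_ (by have := len_nonneg k; positivity)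
      have h3 : ‖f t p‖ ≤ A p := by simpa using h1 t ht p
      have h4 : ‖g t (k - p)‖ ≤ ∑' q, |B q| := by
        have h5 : ‖g t (k - p)‖ ≤ B (k - p) := by simpa using h2 t ht (k - p)
        exact (h5.trans (le_abs_self _)).trans (hB.abs.le_tsum (k - p) fun q _ => abs_nonneg _)
      exact mul_le_mul h3 h4 (norm_nonneg _) ((norm_nonneg _).trans h3)
  have h2 : ContinuousOn (fun t => ∑' p, kd k (f t p) • g t (k - p)) (Ici 0) := by
    intro t ht
    refine ((h1 (t + 1)) t ⟨ht, by linarith⟩).mono_of_mem_nhdsWithin ?_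
    rw [mem_nhdsWithin]
    exact ⟨Iio (t + 1), isOpen_Iio, by simp, fun x hx => ⟨hx.2, (hx.1 : x < t + 1).le⟩⟩
  have h3 : ContinuousOn (fun t => prjC k (∑' p, kd k (f t p) • g t (k - p))) (Ici 0) :=
    (prjC k).continuous.comp_continuousOn h2
  exact h3.const_smul (2 * Real.pi * Complex.I : ℂ)

end Pool.Agent.Run7.h782.GS
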