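import Pool.Agent.Run7.h782.GS.Trunc

/-!
The approximate solution: waves plus the truncated target.
-/

set_option autoImplicit false

open MeasureTheory Set Filter Topology
open scoped ContDiff ComplexConjugate NNReal

namespace Pool.Agent.Run7.h782.GS

open H459R3.NS Pool.Agent.Run7.h782.GD

theorem maj_of_supp {B : Finset K3} {f : ℝ → Cf} (hs : ∀ t, 0 ≤ t → ∀ k ∉ B, f t k = 0)
    (hc : Cnt f) : Maj f := by
  classical
  intro n T
  have h1 : ∀ k, ∃ D : ℝ, ∀ t ∈ Icc 0 T, ‖f t k‖ ≤ D := fun k => by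
    obtain ⟨D, hD⟩ := isCompact_Icc.bddAbove_image
      (((hc k).mono (Icc_subset_Ici_self : Icc 0 T ⊆ Ici 0)).norm)
    exact ⟨D, fun r hr => hD ⟨r, hr, rfl⟩⟩
  choose D hD using h1
  refine ⟨fun k => if k ∈ B then (1 + len k) ^ n * D k else 0,
    summable_of_ne_finset_zero (s := B) fun k hk => if_neg hk, fun t ht k => ?_⟩
  by_cases hk : k ∈ B
  · simp only [if_pos hk]
    exact mul_le_mul_of_nonneg_left (hD k t ht) (zero_le_one.trans (one_le_p k n))
  · simp only [if_neg hk]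
    rw [hs t ht.1 k hk, norm_zero, mul_zero]

theorem cnt_tr {U : ℝ → Cf} (h : Cnt U) (L : ℝ) : Cnt (fun t => tr L (U t)) := by
  intro k
  by_cases hk : k ∈ bl L
  · refine (h k).congr fun t _ => ?_
    exact tr_mem hk
  · refine (continuousOn_const (c := (0 : C3))).congr fun t _ => ?_
    exact tr_not hk

theorem nl_supp {C : Finset K3} {a : Cf} (ha : ∀ k ∉ C, a k = 0) {k : K3}
    (hk : k ∉ Finset.image₂ (fun x y => x + y) C C) : nl a a k = 0 := by
  have h : ∀ p, kd k (a p) • a (k - p) = 0 := by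
    intro p
    by_cases hp : p ∈ C
    · by_cases hq : k - p ∈ C
      · exact absurd (Finset.mem_image₂.2 ⟨p, hp, k - p, hq, by abel⟩) hk
      · rw [ha _ hq, smul_zero]
    · rw [ha _ hp, kd_zero_right, zero_smul]
  rw [nl]
  simp_rw [h]
  rw [tsum_zero, prj_zero, smul_zero]

/-- The frequencies of the approximate solution and of the residual. -/
noncomputable def Bt (B : Finset K3) (L : ℝ) : Finset K3 :=
  ((B ∪ bl L) ∪ Finset.image₂ (fun x y => x + y) (B ∪ bl L) (B ∪ bl L)).erase 0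

/-- The approximate solution. -/
noncomputable def vt (L : ℝ) (U v : ℝ → Cf) (t : ℝ) : Cf := v t + tr L (U t)

/-- The residual. -/
noncomputable def Ft (L : ℝ) (U v F : ℝ → Cf) (t : ℝ) : Cf :=
  F t + (nl (vt L U v t) (vt L U v t) - nl (v t) (v t)) - tr L (nl (U t) (U t))

variable {ν L : ℝ} {B : Finset K3} {U v F : ℝ → Cf}

theorem sub_Bt {k : K3} (h0 : k ≠ 0) (hk : k ∈ B ∪ bl L) : k ∈ Bt B L := by
  rw [Bt, Finset.mem_erase]
  exact ⟨h0, Finset.mem_union_left _ hk⟩

theorem apprv_cnt (A : Appr ν B v F) : Cnt v := fun k t ht => (A.der t ht k).continuousWithinAt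

theorem apprv_maj (A : Appr ν B v F) : Maj v := maj_of_supp (fun t _ => A.suppv t) (apprv_cnt A)

theorem vt_supp (A : Appr ν B v F) (t : ℝ) : ∀ k ∉ B ∪ bl L, vt L U v t k = 0 := by
  intro k hk
  rw [Finset.mem_union, not_or] at hk
  rw [vt, Pi.add_apply, A.suppv t k hk.1, tr_not hk.2, add_zero]

theorem vt_cnt (A : Appr ν B v F) (hU : LSol ν U) : Cnt (vt L U v) :=
  (apprv_cnt A).add (cnt_tr hU.cnt L)

theorem vt_maj (A : Appr ν B v F) (hU : LSol ν U) : Maj (vt L U v) :=
  maj_of_supp (fun t _ => vt_supp A t) (vt_cnt A hU)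

theorem appr_t (A : Appr ν B v F) (hU : LSol ν U) :
    Appr ν (Bt B L) (vt L U v) (Ft L U v F) where
  zero := by
    rw [Bt]
    simp
  suppv := fun t k hk => by
    by_cases h0 : k = 0
    · subst h0
      rw [vt, Pi.add_apply, A.suppv t 0 A.zero, tr_not (zero_bl L), add_zero]
    · exact vt_supp A t k fun h => hk (sub_Bt h0 h)
  suppF := fun t k hk => by
    by_cases h0 : k = 0
    · subst h0
      rw [Ft, Pi.sub_apply, Pi.add_apply, Pi.sub_apply, nl_zero_mode, nl_zero_mode,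
        tr_not (zero_bl L), A.suppF t 0 A.zero]
      simp
    · have h1 : k ∉ B ∪ bl L := fun h => hk (sub_Bt h0 h)
      have h2 : k ∉ Finset.image₂ (fun x y => x + y) (B ∪ bl L) (B ∪ bl L) := fun h => hk (by
        rw [Bt, Finset.mem_erase]
        exact ⟨h0, Finset.mem_union_right _ h⟩)
      have h3 := h1
      rw [Finset.mem_union, not_or] at h3
      rw [Ft, Pi.sub_apply, Pi.add_apply, Pi.sub_apply, nl_supp (vt_supp A t) h2,
        nl_supp (a := v t) (C := B ∪ bl L) (fun k hk => by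
          rw [Finset.mem_union, not_or] at hk
          exact A.suppv t k hk.1) h2, tr_not h3.2, A.suppF t k h3.1]
      simp
  contF := by
    intro k
    have h1 : Cnt fun t => nl (vt L U v t) (vt L U v t) :=
      (vt_cnt A hU).nl (vt_cnt A hU) (vt_maj A hU) (vt_maj A hU)
    have h2 : Cnt fun t => nl (v t) (v t) :=
      (apprv_cnt A).nl (apprv_cnt A) (apprv_maj A) (apprv_maj A)
    have h3 : Cnt fun t => tr L (nl (U t) (U t)) :=
      cnt_tr (hU.cnt.nl hU.cnt hU.maj hU.maj) L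
    exact ((A.contF k).add ((h1 k).sub (h2 k))).sub (h3 k)
  hermv := fun t ht => (A.hermv t ht).add (herm_tr (hU.herm t ht) L)
  hermF := fun t ht => ((A.hermF t ht).add
    ((herm_nl ((A.hermv t ht).add (herm_tr (hU.herm t ht) L))
      ((A.hermv t ht).add (herm_tr (hU.herm t ht) L))).sub
      (herm_nl (A.hermv t ht) (A.hermv t ht)))).sub
    (herm_tr (herm_nl (hU.herm t ht) (hU.herm t ht)) L)
  divv := fun t ht => (A.divv t ht).add (dv_tr (hU.div t ht) L)
  divF := fun t ht => ((A.divF t ht).add ((dv_nl _ _).sub (dv_nl _ _))).sub (dv_tr (dv_nl _ _) L)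
  der := by
    intro t ht k
    have h1 : HasDerivWithinAt (fun s => tr L (U s) k)
        (-(lam ν k : ℂ) • tr L (U t) k - tr L (nl (U t) (U t)) k) (Ici 0) t := by
      by_cases hk : k ∈ bl L
      · rw [tr_mem hk, tr_mem hk]
        refine (hU.der t ht k).congr (fun s _ => tr_mem hk) (tr_mem hk)
      · rw [tr_not hk, tr_not hk, smul_zero, sub_zero]
        exact (hasDerivWithinAt_const t (Ici 0) (0 : C3)).congr (fun s _ => tr_not hk) (tr_not hk)
    have h2 := (A.der t ht k).add h1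
    refine h2.congr_deriv ?_
    rw [Ft, Pi.sub_apply, Pi.add_apply, Pi.sub_apply, vt, Pi.add_apply, smul_add]
    abel

/-- The bound of the residual. -/
theorem Ft_le (A : Appr ν B v F) (hU : LSol ν U) (hL : 0 < L) {t : ℝ} (ht : 0 ≤ t) :
    ∑ k ∈ Bt B L, ‖Ft L U v F t k‖ / len k ≤ ∑ k ∈ B, ‖F t k‖ / len k
      + 48 * Real.pi * (N0 (v t) * N0 (U t)) + 96 * Real.pi * L⁻¹ * (N1 (U t) * N0 (U t)) := by
  have hpi := Real.pi_pos
  have hUM : Maj U := hU.maj
  have hUl := hUM.l1 ht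
  have hvl := (apprv_maj A).l1 ht
  have hVl := l1_tr L (U t)
  have e : Ft L U v F t = F t + (nl (v t) (tr L (U t)) + nl (tr L (U t)) (v t))
      + (nl (tr L (U t)) (tr L (U t)) - tr L (nl (U t) (U t))) := by
    rw [Ft, vt, nl_add_left hvl hVl (hvl.add hVl), nl_add_right hvl hvl hVl,
      nl_add_right hVl hvl hVl]
    abel
  have h1 : ∑ k ∈ Bt B L, ‖F t k‖ / len k ≤ ∑ k ∈ B, ‖F t k‖ / len k := by
    classical
    calc ∑ k ∈ Bt B L, ‖F t k‖ / len k ≤ ∑ k ∈ Bt B L ∪ B, ‖F t k‖ / len k :=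
          Finset.sum_le_sum_of_subset_of_nonneg Finset.subset_union_left fun k _ _ =>
            div_nonneg (norm_nonneg _) (len_nonneg k)
      _ = ∑ k ∈ B, ‖F t k‖ / len k :=
          (Finset.sum_subset Finset.subset_union_right fun k _ hk => by
            rw [A.suppF t k hk, norm_zero, zero_div]).symm
  have h2 := sum_nl_le0 hvl hVl (Bt B L)
  have h3 := sum_nl_le0 hVl hvl (Bt B L)
  have h4 := trunc_le (hU.zero t ht) hUl (hUM.sum wt_len ht) hL (Bt B L)
  have h5 := N0_tr_le hUl L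
  have h6 := N0_nonneg (v t)
  calc ∑ k ∈ Bt B L, ‖Ft L U v F t k‖ / len k
      ≤ ∑ k ∈ Bt B L, (‖F t k‖ / len k + (‖nl (v t) (tr L (U t)) k‖ / len k
        + ‖nl (tr L (U t)) (v t) k‖ / len k)
        + ‖nl (tr L (U t)) (tr L (U t)) k - tr L (nl (U t) (U t)) k‖ / len k) := by
        refine Finset.sum_le_sum fun k _ => ?_
        rw [e, ← add_div, ← add_div, ← add_div]
        refine div_le_div_of_nonneg_right ?_ (len_nonneg k)
        exact (norm_add_le _ _).trans (add_le_add ((norm_add_le _ _).trans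
          (add_le_add le_rfl (norm_add_le _ _))) le_rfl)
    _ = ∑ k ∈ Bt B L, ‖F t k‖ / len k + (∑ k ∈ Bt B L, ‖nl (v t) (tr L (U t)) k‖ / len k
        + ∑ k ∈ Bt B L, ‖nl (tr L (U t)) (v t) k‖ / len k)
        + ∑ k ∈ Bt B L, ‖nl (tr L (U t)) (tr L (U t)) k - tr L (nl (U t) (U t)) k‖ / len k := by
        rw [Finset.sum_add_distrib, Finset.sum_add_distrib, Finset.sum_add_distrib]
    _ ≤ ∑ k ∈ B, ‖F t k‖ / len k + (24 * Real.pi * (N0 (v t) * N0 (U t))
        + 24 * Real.pi * (N0 (v t) * N0 (U t))) + 96 * Real.pi * L⁻¹ * (N1 (U t) * N0 (U t)) := by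
        refine add_le_add (add_le_add h1 (add_le_add (h2.trans ?_) (h3.trans ?_))) h4
        · exact mul_le_mul_of_nonneg_left (mul_le_mul_of_nonneg_left h5 h6) (by positivity)
        · rw [mul_comm (N0 (tr L (U t)))]
          exact mul_le_mul_of_nonneg_left (mul_le_mul_of_nonneg_left h5 h6) (by positivity)
    _ = _ := by ring

end Pool.Agent.Run7.h782.GS
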