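import Pool.Agent.Run7.h782.GS.Step1
import Pool.Agent.Run7.h32.GD.Mn

/-!
Integrated bounds used in the step.
-/

set_option autoImplicit false

open MeasureTheory Set Filter Topology
open scoped ContDiff ComplexConjugate NNReal

namespace Pool.Agent.Run7.h782.GS

open H459R3.NS Pool.Agent.Run7.h782.GD

variable {ν L : ℝ} {B : Finset K3} {U v F : ℝ → Cf}

theorem int_exp_neg_le {a b : ℝ} (ha : 0 ≤ a) : ∫ t in a..b, Real.exp (-t) ≤ 1 := by
  have h : ∫ t in a..b, Real.exp (-t) = Real.exp (-a) - Real.exp (-b) := by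
    have h1 : ∀ t ∈ uIcc a b, HasDerivAt (fun t : ℝ => -Real.exp (-t)) (Real.exp (-t)) t := by
      intro t _
      have h2 := ((hasDerivAt_id t).fun_neg.exp).fun_neg
      refine h2.congr_deriv ?_
      simp
    rw [intervalIntegral.integral_eq_sub_of_hasDerivAt h1
      ((Real.continuous_exp.comp continuous_neg).intervalIntegrable _ _)]
    ring
  rw [h]
  have h1 : Real.exp (-a) ≤ 1 := Real.exp_le_one_iff.2 (by linarith)
  have h2 := Real.exp_pos (-b)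
  linarith

/-- The sum over the finite support. -/
theorem N0_supp (A : Appr ν B v F) {t : ℝ} : N0 (v t) = ∑ k ∈ B, ‖v t k‖ := by
  rw [N0_eq]
  exact tsum_eq_sum fun k hk => by rw [A.suppv t k hk, norm_zero]

theorem sum_supp_le (A : Appr ν B v F) {w : K3 → ℝ} (hw : ∀ k, 0 ≤ w k) (t : ℝ) (A' : Finset K3) :
    ∑ k ∈ A', w k * ‖v t k‖ ≤ ∑ k ∈ B, w k * ‖v t k‖ := by
  classical
  calc ∑ k ∈ A', w k * ‖v t k‖ ≤ ∑ k ∈ A' ∪ B, w k * ‖v t k‖ :=
        Finset.sum_le_sum_of_subset_of_nonneg Finset.subset_union_left fun k _ _ =>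
          mul_nonneg (hw k) (norm_nonneg _)
    _ = ∑ k ∈ B, w k * ‖v t k‖ := (Finset.sum_subset Finset.subset_union_right fun k _ hk => by
        rw [A.suppv t k hk, norm_zero, mul_zero]).symm

theorem sum_supp_le' (A : Appr ν B v F) (t : ℝ) (A' : Finset K3) :
    ∑ k ∈ A', ‖v t k‖ ≤ ∑ k ∈ B, ‖v t k‖ := by
  have h := sum_supp_le A (w := fun _ => 1) (fun _ => zero_le_one) t A'
  simpa using h

theorem sum_B_le (A : Appr ν B v F) (t : ℝ) :
    ∑ k ∈ B, ‖v t k‖ ≤ ∑ k ∈ B, len k * ‖v t k‖ :=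
  Finset.sum_le_sum fun k hk =>
    le_mul_of_one_le_left (norm_nonneg _) (one_le_len fun h => A.zero (h ▸ hk))

theorem contB (A : Appr ν B v F) : ContinuousOn (fun t => ∑ k ∈ B, ‖v t k‖) (Ici 0) :=
  continuousOn_finsetSum _ fun k _ => (apprv_cnt A k).norm

/-- The integral of the sum norm of the waves. -/
theorem int_B_le (A : Appr ν B v F) {δ K θ : ℝ} (hδ : 0 < δ) (hK : 0 < K) (hθ : 0 < θ)
    (h1 : δ ≤ θ / 2) (h2 : δ ≤ θ ^ 2 / (4 * K))
    (hvK : ∀ T, 0 ≤ T → ∫ t in (0 : ℝ)..T, (∑ k ∈ B, ‖v t k‖) ^ 2 ≤ K)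
    (hvd : ∀ t, δ ≤ t → ∑ k ∈ B, len k * ‖v t k‖ ≤ δ * Real.exp (-t)) {T : ℝ} (hT : 0 ≤ T) :
    ∫ t in (0 : ℝ)..T, ∑ k ∈ B, ‖v t k‖ ≤ θ := by
  have hc := contB A
  have hcs : ContinuousOn (fun t => (∑ k ∈ B, ‖v t k‖) ^ 2) (Ici 0) := hc.pow 2
  set T' := max T δ with hT'
  have hT0 : 0 ≤ T' := hT.trans (le_max_left _ _)
  have hTT : T ≤ T' := le_max_left _ _
  have hδT : δ ≤ T' := le_max_right _ _
  have e1 := intervalIntegral.integral_add_adjacent_intervals (ii hc le_rfl hT) (ii hc hT hTT)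
  have e2 : 0 ≤ ∫ t in T..T', ∑ k ∈ B, ‖v t k‖ :=
    intervalIntegral.integral_nonneg hTT fun t _ => Finset.sum_nonneg fun k _ => norm_nonneg _
  have e3 := intervalIntegral.integral_add_adjacent_intervals (ii hc le_rfl hδ.le)
    (ii hc hδ.le hδT)
  have e4 : ∫ t in δ..T', ∑ k ∈ B, ‖v t k‖ ≤ δ := by
    have h3 : ∫ t in δ..T', ∑ k ∈ B, ‖v t k‖ ≤ ∫ t in δ..T', δ * Real.exp (-t) :=
      intervalIntegral.integral_mono_on hδT (ii hc hδ.le hδT)
        ((Continuous.intervalIntegrable (by fun_prop)) _ _) fun t ht =>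
          (sum_B_le A t).trans (hvd t ht.1)
    rw [intervalIntegral.integral_const_mul] at h3
    have h4 := int_exp_neg_le (a := δ) (b := T') hδ.le
    nlinarith
  have e5 : ∫ t in (0 : ℝ)..δ, ∑ k ∈ B, ‖v t k‖ ≤ θ / 2 := by
    have h3 : ∫ t in (0 : ℝ)..δ, ∑ k ∈ B, ‖v t k‖
        ≤ ∫ t in (0 : ℝ)..δ, (θ / (4 * K) * (∑ k ∈ B, ‖v t k‖) ^ 2 + K / θ) := by
      refine intervalIntegral.integral_mono_on hδ.le (ii hc le_rfl hδ.le)
        (((ii hcs le_rfl hδ.le).const_mul _).add intervalIntegrable_const) fun t _ => ?_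
      set x := ∑ k ∈ B, ‖v t k‖
      have h4 : 0 ≤ (θ * x - 2 * K) ^ 2 / (4 * K * θ) := by positivity
      have h5 : (θ * x - 2 * K) ^ 2 / (4 * K * θ) = θ / (4 * K) * x ^ 2 + K / θ - x := by
        field_simp
        ring
      linarith
    rw [intervalIntegral.integral_add ((ii hcs le_rfl hδ.le).const_mul _)
      intervalIntegrable_const, intervalIntegral.integral_const_mul,
      intervalIntegral.integral_const, smul_eq_mul, sub_zero] at h3
    have h4 : θ / (4 * K) * (∫ t in (0 : ℝ)..δ, (∑ k ∈ B, ‖v t k‖) ^ 2) ≤ θ / (4 * K) * K :=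
      mul_le_mul_of_nonneg_left (hvK δ hδ.le) (by positivity)
    have h5 : θ / (4 * K) * K = θ / 4 := by field_simp
    have h6 : δ * (K / θ) ≤ θ ^ 2 / (4 * K) * (K / θ) :=
      mul_le_mul_of_nonneg_right h2 (by positivity)
    have h7 : θ ^ 2 / (4 * K) * (K / θ) = θ / 4 := by
      field_simp
    linarith
  linarith

/-- Bounds of a target in terms of the norms. -/
theorem Tg.bounds {U : ℝ → Cf} (hU : Tg ν U) : ∃ M₀ M₁ : ℝ, 0 ≤ M₀ ∧ 0 ≤ M₁ ∧
    (∀ t, 0 ≤ t → N0 (U t) ≤ M₀) ∧ ∀ s t, 0 ≤ s → s ≤ t → ∫ r in s..t, N1 (U r) ≤ M₁ := by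
  obtain ⟨M₀, h0⟩ := hU.bd
  obtain ⟨M₁, h1⟩ := hU.int
  have hUM : Maj U := hU.toLSol.maj
  refine ⟨M₀, M₁, by simpa using h0 0 le_rfl ∅, by simpa using h1 0 le_rfl ∅, fun t ht => ?_,
    fun s t hs hst => ?_⟩
  · rw [N0_eq]
    exact Real.tsum_le_of_sum_le (fun k => norm_nonneg _) (h0 t ht)
  · have hst0 := hs.trans hst
    have h2 : ∫ r in (0 : ℝ)..t, N1 (U r) ≤ M₁ :=
      int_W_le hUM hU.toLSol.cnt wt_len le_rfl hst0 (h1 t hst0)
    have h3 := intervalIntegral.integral_add_adjacent_intervals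
      (ii hU.toLSol.contN1 le_rfl hs) (ii hU.toLSol.contN1 hs hst)
    have h4 : 0 ≤ ∫ r in (0 : ℝ)..s, N1 (U r) :=
      intervalIntegral.integral_nonneg hs fun r _ => N1_nonneg _
    linarith

end Pool.Agent.Run7.h782.GS
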